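import Pool.Agent.Helper40.MC.Defs
import Pool.Agent.Helper6.MC.Deg
import Pool.Agent.Helper38.MC.Pump
import Pool.Agent.Helper83.FM.Aut

/-!
# Few models: the tame side
-/

set_option autoImplicit false

namespace Pool.Agent.Helper40.MC

open FirstOrder Pool.Agent.Helper20.Spectra Pool.Agent.Helper58.QD
open Pool.Agent.Helper6.MC (Flip IsAut)
open Pool.Agent.Helper31.QD (Au qd)

variable {S : Type} {ar : S → ℕ}

/-- the colour of a pair: all relations on its two elements -/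
def colR {M : Type} (R : Interp S ar M) (x y : M) : (s : S) → (Fin (ar s) → Bool) → Prop :=
  fun s f => R s (fun i => if f i then y else x)

lemma colR_flip {M : Type} (R : Interp S ar M) : Flip (colR R) := by
  intro x y x' y' h
  funext s f
  have h1 := congrFun (congrFun h s) (fun i => !(f i))
  have e : ∀ a b : M, (fun i => if (!(f i)) = true then b else a) =
      fun i => if f i = true then a else b := by
    intro a b
    funext i
    cases f i <;> rfl
  unfold colR at h1 ⊢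
  rw [e, e] at h1
  exact h1

lemma au_iff {M : Type} (R : Interp S ar M) (har : ∀ s, ar s ≤ 2) (σ : Equiv.Perm M) :
    Au R σ ↔ IsAut (colR R) σ := by
  constructor
  · intro h x y
    funext s f
    have h1 := h s (fun i => if f i then y else x)
    have e : (σ ∘ fun i => if f i = true then y else x) =
        fun i => if f i = true then σ y else σ x := by
      funext i
      show σ (if f i = true then y else x) = _
      split <;> rfl
    rw [e] at h1
    exact propext h1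
  · intro h s t
    by_cases h0 : ar s = 0
    · have e : σ ∘ t = t := by
        funext i
        exact absurd i.isLt (by omega)
      rw [e]
    · have h1 := congrFun (congrFun (h (t ⟨0, by omega⟩) (t ⟨ar s - 1, by omega⟩)) s)
        (fun i => decide ((i : ℕ) ≠ 0))
      have e : ∀ τ : M → M, (fun i : Fin (ar s) => if decide ((i : ℕ) ≠ 0) = true
          then τ (t ⟨ar s - 1, by omega⟩) else τ (t ⟨0, by omega⟩)) = τ ∘ t := by
        intro τ
        funext i
        by_cases hi : (i : ℕ) = 0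
        · have : i = ⟨0, by omega⟩ := Fin.ext hi
          rw [this]
          simp
        · have h2 : i = ⟨ar s - 1, by omega⟩ := Fin.ext (by
            have := i.isLt
            have := har s
            show (i : ℕ) = ar s - 1
            omega)
          have h3 : decide ((i : ℕ) ≠ 0) = true := by simpa using hi
          rw [h3]
          rw [h2]
          rfl
      have h2 : R s (σ ∘ t) = R s (id ∘ t) := by
        rw [← e σ, ← e id]
        exact h1
      exact Iff.of_eq h2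

/-- `n! ≤ N |Aut|` -/
theorem factorial_le [Finite S] {χ : (RelLang S ar).Sentence} {n : ℕ}
    {R : Interp S ar (Fin n)} (hR : IsMod χ R) :
    n.factorial ≤ count χ n * Nat.card {σ : Equiv.Perm (Fin n) // Au R σ} := by
  classical
  have : Finite (Interp S ar (Fin n)) := Pi.finite
  have := Fintype.ofFinite {R : Interp S ar (Fin n) // IsMod χ R}
  let Φ : Equiv.Perm (Fin n) → {R : Interp S ar (Fin n) // IsMod χ R} := fun σ =>
    ⟨fun s w => R s (σ ∘ w), Pool.Agent.Helper38.QD.isMod_perm hR σ⟩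
  have h1 := Finset.card_le_mul_card_image (f := Φ) (Finset.univ : Finset (Equiv.Perm (Fin n)))
    (Nat.card {σ : Equiv.Perm (Fin n) // Au R σ}) (by
      intro a ha
      obtain ⟨σ0, _, rfl⟩ := Finset.mem_image.1 ha
      have h2 : Nat.card {σ : Equiv.Perm (Fin n) // Au R σ} =
          (Finset.univ.filter fun σ : Equiv.Perm (Fin n) => Au R σ).card := by
        rw [Nat.card_eq_fintype_card, Fintype.card_subtype]
      rw [h2]
      refine Finset.card_le_card_of_injOn (fun σ => σ * σ0⁻¹) ?_ ?_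
      · intro σ hσ
        have h3 : Φ σ = Φ σ0 := (Finset.mem_filter.1 (Finset.mem_coe.1 hσ)).2
        have h4 := congrArg Subtype.val h3
        rw [Finset.mem_coe, Finset.mem_filter]
        refine ⟨Finset.mem_univ _, ?_⟩
        intro s t
        have h5 : R s (σ ∘ (⇑σ0⁻¹ ∘ t)) = R s (σ0 ∘ (⇑σ0⁻¹ ∘ t)) :=
          congrFun (congrFun h4 s) (⇑σ0⁻¹ ∘ t)
        have e1 : (⇑(σ * σ0⁻¹) ∘ t) = σ ∘ (⇑σ0⁻¹ ∘ t) := by
          funext j
          simp
        have e2 : (σ0 ∘ (⇑σ0⁻¹ ∘ t)) = t := by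
          funext j
          simp
        rw [e1, h5, e2]
      · intro σ _ τ _ h
        exact mul_right_cancel h)
  have h2 : (Finset.univ : Finset (Equiv.Perm (Fin n))).card = n.factorial := by
    rw [Finset.card_univ, Fintype.card_perm, Fintype.card_fin]
  rw [h2] at h1
  refine h1.trans ?_
  rw [mul_comm]
  refine Nat.mul_le_mul_right _ ?_
  have h3 : count χ n = Fintype.card {R : Interp S ar (Fin n) // IsMod χ R} :=
    Nat.card_eq_fintype_card
  rw [h3]
  exact Finset.card_le_univ _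

lemma count_pos [Finite S] {χ : (RelLang S ar).Sentence} {n : ℕ} {R : Interp S ar (Fin n)}
    (hR : IsMod χ R) : 1 ≤ count χ n := by
  have : Finite (Interp S ar (Fin n)) := Pi.finite
  have : Nonempty {R : Interp S ar (Fin n) // IsMod χ R} := ⟨⟨R, hR⟩⟩
  exact Nat.card_pos

lemma count_zero {χ : (RelLang S ar).Sentence} {n : ℕ} (h : n ∉ spec χ) (hn : 1 ≤ n) :
    count χ n = 0 := by
  have : IsEmpty {R : Interp S ar (Fin n) // IsMod χ R} := ⟨fun R => h ⟨hn, R.1, R.2⟩⟩
  exact Nat.card_of_isEmpty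

/-- many automorphisms give homogeneous families (helper6, helper53) -/
def StmtHomC : Prop := ∀ (k q : ℕ) (ε : ℝ), 0 < ε → ∀ᶠ n : ℕ in Filter.atTop,
  ∀ (Col : Type) (c : Fin n → Fin n → Col), Flip c →
    (n : ℝ) ^ ((1 / (k + 1) + ε) * n) ≤
      (Nat.card {g : Equiv.Perm (Fin n) // IsAut c g} : ℝ) →
    ∃ t, 1 ≤ t ∧ t ≤ k ∧ ∃ u : Fin q × Fin t → Fin n, Function.Injective u ∧
      ∀ (π : Equiv.Perm (Fin q)) (σ : Equiv.Perm (Fin n)), (∀ i x, σ (u (i, x)) = u (π i, x)) →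
        (∀ z, (∀ p, u p ≠ z) → σ z = z) → IsAut c σ

/-- numerics: `n ^ ((1 / (k + 1) + ε) n) ≤ n! / n ^ (c n)` -/
lemma num_aux (k : ℕ) {c ε : ℝ} (h : 1 / ((k : ℝ) + 1) + ε < 1 - c) :
    ∀ᶠ n : ℕ in Filter.atTop, ∀ N G : ℕ, (N : ℝ) ≤ (n : ℝ) ^ (c * n) → n.factorial ≤ N * G →
      (n : ℝ) ^ ((1 / ((k : ℝ) + 1) + ε) * n) ≤ (G : ℝ) := by
  have hδ : 0 < 1 - c - (1 / ((k : ℝ) + 1) + ε) := by linarith
  -- eventually `3 ≤ n ^ δ`
  have h1 : ∀ᶠ n : ℕ in Filter.atTop, (3 : ℝ) ≤ (n : ℝ) ^ (1 - c - (1 / ((k : ℝ) + 1) + ε)) :=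
    ((tendsto_rpow_atTop hδ).comp tendsto_natCast_atTop_atTop).eventually_ge_atTop 3
  filter_upwards [h1, Filter.eventually_ge_atTop 1] with n hn hn1 N G hN hG
  have hn0 : (0 : ℝ) < n := by exact_mod_cast hn1
  have h2 := Pool.Agent.Helper83.FM.pow_self_le n
  have h3 : (n : ℝ) ^ n ≤ 3 ^ n * ((N : ℝ) * G) := by
    have h4 : (n : ℝ) ^ n ≤ 3 ^ n * (n.factorial : ℝ) := by exact_mod_cast h2
    have h5 : (n.factorial : ℝ) ≤ (N : ℝ) * G := by exact_mod_cast hG
    exact h4.trans (mul_le_mul_of_nonneg_left h5 (by positivity))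
  have h4 : (3 : ℝ) ^ n ≤ (n : ℝ) ^ ((1 - c - (1 / ((k : ℝ) + 1) + ε)) * n) := by
    rw [Real.rpow_mul hn0.le, Real.rpow_natCast]
    exact pow_le_pow_left₀ (by norm_num) hn n
  have h5 : (n : ℝ) ^ n ≤ (n : ℝ) ^ ((1 - c - (1 / ((k : ℝ) + 1) + ε)) * n) *
      ((n : ℝ) ^ (c * n) * G) := by
    refine h3.trans (mul_le_mul h4 (mul_le_mul_of_nonneg_right hN (Nat.cast_nonneg _))
      (by positivity) (Real.rpow_nonneg hn0.le _))
  have h6 : (n : ℝ) ^ n = (n : ℝ) ^ ((1 - c - (1 / ((k : ℝ) + 1) + ε)) * n) *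
      ((n : ℝ) ^ (c * n) * (n : ℝ) ^ ((1 / ((k : ℝ) + 1) + ε) * n)) := by
    rw [← Real.rpow_add hn0, ← Real.rpow_add hn0, ← Real.rpow_natCast]
    congr 1
    ring
  rw [h6] at h5
  have h7 := le_of_mul_le_mul_left h5 (Real.rpow_pos_of_pos hn0 _)
  exact le_of_mul_le_mul_left h7 (Real.rpow_pos_of_pos hn0 _)

theorem tame (hH : StmtHomC) : StmtTame := by
  intro S _ ar χ har c hc
  have hk1 : 1 / (1 - c) < (⌊1 / (1 - c)⌋₊ : ℝ) + 1 := Nat.lt_floor_add_one _
  obtain ⟨k, hk⟩ : ∃ k, k = ⌊1 / (1 - c)⌋₊ := ⟨_, rfl⟩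
  rw [← hk] at hk1 ⊢
  have hc' : 0 < 1 - c := by linarith
  have hk2 : 1 / ((k : ℝ) + 1) < 1 - c := by
    rw [div_lt_iff₀ hc'] at hk1
    rw [div_lt_iff₀ (by positivity)]
    linarith [mul_comm ((k : ℝ) + 1) (1 - c)]
  obtain ⟨ε, hε, hε'⟩ : ∃ ε : ℝ, 0 < ε ∧ 1 / ((k : ℝ) + 1) + ε < 1 - c :=
    ⟨(1 - c - 1 / ((k : ℝ) + 1)) / 2, by linarith, by linarith⟩
  obtain ⟨n₁, hn₁⟩ := Filter.eventually_atTop.1 ((num_aux k hε').and
    (hH k (max 1 (qd χ)) ε hε))
  refine ⟨n₁, fun n hn hnn hcount => ?_⟩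
  obtain ⟨hn0, R, hR⟩ := hn
  obtain ⟨hA, hB⟩ := hn₁ n hnn
  have h1 := hA (count χ n) _ hcount (factorial_le hR)
  have h2 : Nat.card {σ : Equiv.Perm (Fin n) // Au R σ} =
      Nat.card {g : Equiv.Perm (Fin n) // IsAut (colR R) g} :=
    Nat.card_congr (Equiv.subtypeEquivRight (fun σ => au_iff R har σ))
  rw [h2] at h1
  obtain ⟨t, ht1, htk, u, hu, hu'⟩ := hB _ (colR R) (colR_flip R) h1
  refine ⟨t, ht1, htk, fun j => ⟨by omega, ?_⟩⟩
  exact Pool.Agent.Helper38.MC.pump χ R hR (le_max_left _ _) (le_max_right _ _) u hu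
    (fun π σ h3 h4 => (au_iff R har σ).2 (hu' π σ h3 h4)) j

end Pool.Agent.Helper40.MC
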