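import Pool.Agent.Helper58.QD.Defs

/-!
# Numbers of models and spectra: definitions and statements of the blocks
-/

set_option autoImplicit false

namespace Pool.Agent.Helper40.MC

open FirstOrder Pool.Agent.Helper20.Spectra Pool.Agent.Helper58.QD

/-- the spectrum of a sentence `χ` in the relation symbols `S` -/
def spec {S : Type} {ar : S → ℕ} (χ : (RelLang S ar).Sentence) : Set ℕ :=
  {n : ℕ | 1 ≤ n ∧ ∃ R : Interp S ar (Fin n), IsMod χ R}

/-- `A` is the spectrum of a first-order sentence `χ` in finitely many relation symbols of arity at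
most two such that for all large `n` at most `n ^ (c n)` structures with universe
`{0, ..., n - 1}` are models of `χ`. -/
def CountSpectrum (c : ℝ) (A : Set ℕ) : Prop :=
  ∃ (S : Type) (_ : Finite S) (ar : S → ℕ) (χ : (RelLang S ar).Sentence), (∀ s, ar s ≤ 2) ∧
    (∀ᶠ n : ℕ in Filter.atTop, (count χ n : ℝ) ≤ (n : ℝ) ^ (c * n)) ∧ A = spec χ

/-- `A` is the union of a finite set and of finitely many arithmetic progressions
`{a + t j : j ≥ 0}` with `1 ≤ t ≤ k`. -/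
def FinAP (k : ℕ) (A : Set ℕ) : Prop :=
  ∃ (F : Finset ℕ) (P : Finset (ℕ × ℕ)), (∀ p ∈ P, 1 ≤ p.2 ∧ p.2 ≤ k) ∧
    A = {n : ℕ | n ∈ F ∨ ∃ p ∈ P, ∃ j : ℕ, n = p.1 + p.2 * j}

/-! ## Working definitions -/

/-- working form of `FinAP` -/
def APk (k : ℕ) (A : Set ℕ) : Prop :=
  ∃ n₁ : ℕ, ∀ n ∈ A, n₁ ≤ n → ∃ t, 1 ≤ t ∧ t ≤ k ∧ ∀ j : ℕ, n + t * j ∈ A

/-- relations of arity at most two as binary relations -/
def bin {S : Type} {ar : S → ℕ} {M : Type} (R : Interp S ar M) : S → M → M → Prop :=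
  fun s x y => R s (fun i => if (i : ℕ) = 0 then x else y)

/-- the automorphisms of a family of binary relations -/
def AutQ {S V : Type} (Q : S → V → V → Prop) : Subgroup (Equiv.Perm V) where
  carrier := {σ | ∀ s x y, Q s (σ x) (σ y) ↔ Q s x y}
  mul_mem' := by
    intro σ τ hσ hτ s x y
    exact (hσ s (τ x) (τ y)).trans (hτ s x y)
  one_mem' := fun _ _ _ => Iff.rfl
  inv_mem' := by
    intro σ hσ s x y
    have h := hσ s (σ⁻¹ x) (σ⁻¹ y)
    have e : ∀ z, σ (σ⁻¹ z) = z := fun z => σ.apply_symm_apply z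
    rw [e, e] at h
    exact h.symm

open Classical in
/-- the places at which `x` and `y` differ -/
noncomputable def DQ {S V : Type} [Fintype V] (Q : S → V → V → Prop) (x y : V) : Finset V :=
  Finset.univ.filter (fun z => ∃ s, ¬ (Q s x z ↔ Q s y z) ∨ ¬ (Q s z x ↔ Q s z y))

open Classical in
/-- the orbit of `x` -/
noncomputable def orb {V : Type} [Fintype V] (H : Subgroup (Equiv.Perm V)) (x : V) : Finset V :=
  Finset.univ.filter (fun y => ∃ σ ∈ H, σ x = y)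

/-- the permutations fixing all points of `W` -/
def fixP {V : Type} (W : Set V) : Subgroup (Equiv.Perm V) where
  carrier := {σ | ∀ x ∈ W, σ x = x}
  mul_mem' := by
    intro σ τ hσ hτ x hx
    rw [Equiv.Perm.mul_apply, hτ x hx, hσ x hx]
  one_mem' := fun _ _ => rfl
  inv_mem' := by
    intro σ hσ x hx
    show σ⁻¹ x = x
    rw [Equiv.Perm.inv_eq_iff_eq, hσ x hx]

/-- homogeneous families: `q` disjoint blocks of `t` points -/
def HomFam {S V : Type} (Q : S → V → V → Prop) (t q : ℕ) : Prop :=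
  ∃ f : Fin q → Fin t → V, (∀ i j a b, f i a = f j b → i = j ∧ a = b) ∧
    (∀ s i i' a w, (∀ j b, w ≠ f j b) →
      ((Q s (f i a) w ↔ Q s (f i' a) w) ∧ (Q s w (f i a) ↔ Q s w (f i' a)))) ∧
    (∀ s i i' a b, Q s (f i a) (f i b) ↔ Q s (f i' a) (f i' b)) ∧
    ∀ s i j i' j' a b, i ≠ j → i' ≠ j' → (Q s (f i a) (f j b) ↔ Q s (f i' a) (f j' b))

/-! ## The blocks -/

/-- S1: hitting sets (greedy) -/
def StmtHit : Prop := ∀ (V ι : Type) [Fintype V] [DecidableEq V] [Fintype ι] (D : ι → Finset V)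
  (L j : ℕ), (∀ i, L < (D i).card) →
  Fintype.card ι * (Fintype.card V - L) ^ j < Fintype.card V ^ j →
  ∃ P : Finset V, P.card ≤ j ∧ ∀ i, ∃ x ∈ P, x ∈ D i

/-- S2: passing to a large pointwise stabiliser all of whose orbits are long (helper38) -/
def StmtFix : Prop := ∀ (V : Type) [Fintype V] (G : Subgroup (Equiv.Perm V)) (P : Finset V)
  (b : ℕ), 1 ≤ b → ∃ F : Set V, (∀ x ∈ P, x ∈ F) ∧
  Nat.card G ≤ Fintype.card V ^ P.card * b ^ Fintype.card V *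
    Nat.card (G ⊓ fixP F : Subgroup (Equiv.Perm V)) ∧
  ∀ x, x ∉ F → b < (orb (G ⊓ fixP F) x).card

open Classical in
/-- S3: majority values -/
def StmtMaj : Prop := ∀ (V S : Type) [Fintype V] [Fintype S] (Q : S → V → V → Prop)
  (H : Subgroup (Equiv.Perm V)) (F : Set V) (L : ℕ), 1 ≤ L → H ≤ AutQ Q →
  (∀ σ ∈ H, ∀ x ∈ F, σ x = x) → (∀ x, x ∉ F → 4 * L < (orb H x).card) →
  (∀ x, ∀ y ∈ orb H x, (DQ Q x y).card ≤ L) →
  ∃ E : V → V → Prop, (∀ x y, E x y → E y x) ∧ (∀ x y, E x y → x ∉ F) ∧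
    (∀ σ ∈ H, ∀ x y, E x y → E (σ x) (σ y)) ∧
    (∀ x, (Finset.univ.filter (fun y => E x y)).card ≤ 2 * Fintype.card S * L) ∧
    ∀ s x y x' y', x ∉ F → y ∉ F → x' ∈ orb H x → y' ∈ orb H y → ¬ E x y → ¬ E x' y' →
      (Q s x y ↔ Q s x' y')

open Classical in
/-- S4: components of the minority graph -/
def StmtComp : Prop := ∀ (V S : Type) [Fintype V] [Fintype S] (Q : S → V → V → Prop)
  (H : Subgroup (Equiv.Perm V)) (F : Set V) (d k q : ℕ) (E : V → V → Prop), H ≤ AutQ Q →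
  (∀ σ ∈ H, ∀ x ∈ F, σ x = x) →
  (∀ x y, E x y → E y x) → (∀ x y, E x y → x ∉ F) →
  (∀ σ ∈ H, ∀ x y, E x y → E (σ x) (σ y)) →
  (∀ x, (Finset.univ.filter (fun y => E x y)).card ≤ d) →
  (∀ s x y x' y', x ∉ F → y ∉ F → x' ∈ orb H x → y' ∈ orb H y → ¬ E x y → ¬ E x' y' →
      (Q s x y ↔ Q s x' y')) →
  (∃ t, 1 ≤ t ∧ t ≤ k ∧ HomFam Q t q) ∨
  Nat.card H ≤ Fintype.card V ^ (Fintype.card V / (k + 1)) * (q * k + 1) ^ Fintype.card V *
      (d + 1) ^ Fintype.card V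

/-- S5: numerics: many automorphisms give homogeneous families -/
def StmtHom : Prop := ∀ (S : Type) [Finite S] (k q : ℕ) (ε : ℝ), 0 < ε →
  ∀ᶠ n : ℕ in Filter.atTop, ∀ Q : S → Fin n → Fin n → Prop,
    (n : ℝ) ^ ((1 / (k + 1) + ε) * n) ≤ (Nat.card (AutQ Q) : ℝ) →
    ∃ t, 1 ≤ t ∧ t ≤ k ∧ HomFam Q t q

/-- S6: few models, many automorphisms -/
def StmtOrb : Prop := ∀ (S : Type) [Finite S] (ar : S → ℕ) (χ : (RelLang S ar).Sentence),
  (∀ s, ar s ≤ 2) → ∀ (n : ℕ) (R : Interp S ar (Fin n)), IsMod χ R →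
  n.factorial ≤ count χ n * Nat.card (AutQ (bin R))

/-- B4: pumping -/
def StmtPump : Prop := ∀ (S : Type) [Finite S] (ar : S → ℕ) (χ : (RelLang S ar).Sentence),
  (∀ s, ar s ≤ 2) → ∃ q : ℕ, ∀ (n : ℕ) (R : Interp S ar (Fin n)), IsMod χ R →
    ∀ t, 1 ≤ t → HomFam (bin R) t q → ∀ j : ℕ, n + t * j ∈ spec χ

/-- assembly of the tame side, pointwise (helper53) -/
def StmtTame : Prop := ∀ (S : Type) [Finite S] (ar : S → ℕ) (χ : (RelLang S ar).Sentence),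
  (∀ s, ar s ≤ 2) → ∀ c : ℝ, c < 1 → ∃ n₁ : ℕ, ∀ n ∈ spec χ, n₁ ≤ n →
    (count χ n : ℝ) ≤ (n : ℝ) ^ (c * n) →
    ∃ t, 1 ≤ t ∧ t ≤ ⌊1 / (1 - c)⌋₊ ∧ ∀ j : ℕ, n + t * j ∈ spec χ

/-- B5a: combinatorics of progressions -/
def StmtAP : Prop := ∀ (k : ℕ) (A : Set ℕ), APk k A ↔ FinAP k A

/-- B5b: the progressions have sentences with few models -/
def StmtConv : Prop := ∀ (k : ℕ) (A : Set ℕ), 0 ∉ A → FinAP k A →
  ∃ χ : (RelLang Unit (fun _ => 2)).Sentence, spec χ = A ∧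
    (k = 0 → ∀ᶠ n : ℕ in Filter.atTop, count χ n = 0) ∧
    (1 ≤ k → ∀ᶠ n : ℕ in Filter.atTop, count χ n ^ k ≤ n ^ ((k - 1) * n))

/-- B6: the wild side (unit interval graphs) -/
def StmtWild : Prop := ∃ χ : (RelLang Unit (fun _ => 2)).Sentence,
  (∀ n, count χ n ≤ 4 ^ n * n.factorial) ∧ ∀ A : Set ℕ, IsSpectrum A →
    ∃ q : Polynomial ℕ, A = {n : ℕ | 1 ≤ n ∧ q.eval n ∈ spec χ}

/-- clause for all arities (helper83): the first jump -/
def StmtJump : Prop := ∀ (S : Type) [Finite S] (ar : S → ℕ) (χ : (RelLang S ar).Sentence),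
  ((∃ C, ∀ n, 1 ≤ n → count χ n ≤ C ^ n) ∧ ((spec χ).Finite ∨ (spec χ)ᶜ.Finite)) ∨
    ∃ D, 1 ≤ D ∧ ∀ N, ∃ n, N ≤ n ∧ n ^ n ≤ count χ n ^ D

end Pool.Agent.Helper40.MC
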