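import Pool.Agent.Helper38.MC.ADefs
import Pool.Agent.Helper14.SS.Defs

/-!
# Numbers of models and spectra: final definitions (all arities, monadic second-order logic)
-/

set_option autoImplicit false

namespace Pool.Agent.Helper40.MCM

open FirstOrder Pool.Agent.Helper20.Spectra Pool.Agent.Helper58.QD Pool.Agent.Helper14.SS
open Pool.Agent.Helper31.QD (Au)
open Pool.Agent.Helper38.MC (AuG)
open Pool.Agent.Helper40.MC (FinAP APk)

variable {S : Type} {ar : S → ℕ}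

/-- The interpretation `R` of the relation symbols `S` on `M` satisfies the sentence `φ` of monadic
second-order logic: the set variables range over all subsets of `M`. -/
def SatM (φ : SFm (RelLang S ar) 0 0) {M : Type} [Fintype M] (R : Interp S ar M) : Prop :=
  @SFm.Holds (RelLang S ar) M (mkS R) (Fintype.card M) 0 0 φ Fin.elim0 Fin.elim0

/-- the number of models of `φ` with universe `{0, ..., n - 1}` -/
noncomputable def countM (φ : SFm (RelLang S ar) 0 0) (n : ℕ) : ℕ :=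
  Nat.card {R : Interp S ar (Fin n) // SatM φ R}

/-- the spectrum of `φ` -/
def specM (φ : SFm (RelLang S ar) 0 0) : Set ℕ :=
  {n : ℕ | 1 ≤ n ∧ ∃ R : Interp S ar (Fin n), SatM φ R}

/-- `A` is the spectrum of a first-order sentence `χ` in finitely many relation symbols such that,
for all large `n`, at most `n ^ (c n)` structures with universe `{0, ..., n - 1}` are models
of `χ`. -/
def CountSpectrum (c : ℝ) (A : Set ℕ) : Prop :=
  ∃ (S : Type) (_ : Finite S) (ar : S → ℕ) (χ : (RelLang S ar).Sentence),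
    (∀ᶠ n : ℕ in Filter.atTop, (count χ n : ℝ) ≤ (n : ℝ) ^ (c * n)) ∧
    A = Pool.Agent.Helper40.MC.spec χ

/-- the same for sentences of monadic second-order logic -/
def MCountSpectrum (c : ℝ) (A : Set ℕ) : Prop :=
  ∃ (S : Type) (_ : Finite S) (ar : S → ℕ) (φ : SFm (RelLang S ar) 0 0),
    (∀ᶠ n : ℕ in Filter.atTop, (countM φ n : ℝ) ≤ (n : ℝ) ^ (c * n)) ∧ A = specM φ

/-! ## Blocks -/

/-- pumping for monadic second-order logic (helper6) -/
def StmtPumpM : Prop := ∀ (S : Type) [Finite S] (ar : S → ℕ) (φ : SFm (RelLang S ar) 0 0) (t : ℕ),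
  ∃ q₀ : ℕ, ∀ q, q₀ ≤ q → 1 ≤ q → ∀ (n : ℕ) (R : Interp S ar (Fin n)), SatM φ R →
    ∀ u : Fin q × Fin t → Fin n, Function.Injective u →
    (∀ (π : Equiv.Perm (Fin q)) (σ : Equiv.Perm (Fin n)), (∀ i x, σ (u (i, x)) = u (π i, x)) →
      (∀ z, (∀ p, u p ≠ z) → σ z = z) → Au R σ) →
    ∀ j : ℕ, ∃ R' : Interp S ar (Fin (n + t * j)), SatM φ R'

/-- the tame side, pointwise -/
def StmtTameM : Prop := ∀ (S : Type) [Finite S] (ar : S → ℕ) (φ : SFm (RelLang S ar) 0 0)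
  (c : ℝ), c < 1 → ∃ n₁ : ℕ, ∀ n ∈ specM φ, n₁ ≤ n → (countM φ n : ℝ) ≤ (n : ℝ) ^ (c * n) →
    ∃ t, 1 ≤ t ∧ t ≤ ⌊1 / (1 - c)⌋₊ ∧ ∀ j : ℕ, n + t * j ∈ specM φ

/-- the wild side for monadic second-order logic (helper20) -/
def StmtWildM : Prop := ∃ (S : Type) (_ : Finite S) (ar : S → ℕ) (φ : SFm (RelLang S ar) 0 0),
  (∀ᶠ n : ℕ in Filter.atTop, (countM φ n : ℝ) ≤ (n : ℝ) ^ ((1 : ℝ) * n)) ∧ ¬ PolyHier (specM φ)

/-- the wild side for first-order logic (helper20) -/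
def StmtWild1 : Prop := ∃ (S : Type) (_ : Finite S) (ar : S → ℕ) (χ : (RelLang S ar).Sentence),
  (∀ᶠ n : ℕ in Filter.atTop, (count χ n : ℝ) ≤ (n : ℝ) ^ ((1 : ℝ) * n)) ∧
    ∀ A : Set ℕ, IsSpectrum A →
      ∃ q : Polynomial ℕ, A = {n : ℕ | 1 ≤ n ∧ q.eval n ∈ Pool.Agent.Helper40.MC.spec χ}

/-- the first jump (helper83) -/
def StmtJumpM : Prop := ∀ (S : Type) [Finite S] (ar : S → ℕ) (φ : SFm (RelLang S ar) 0 0),
  ((∃ C, ∀ n, 1 ≤ n → countM φ n ≤ C ^ n) ∧ ((specM φ).Finite ∨ (specM φ)ᶜ.Finite)) ∨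
    ∃ D, 1 ≤ D ∧ ∀ N, ∃ n, N ≤ n ∧ n ^ n ≤ countM φ n ^ D

end Pool.Agent.Helper40.MCM
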