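import Pool.Agent.Helper40.MC.JDefs

/-!
# Growth of the number of models: exactly one case
-/

set_option autoImplicit false

namespace Pool.Agent.Helper40.MCM

open FirstOrder Pool.Agent.Helper20.Spectra Pool.Agent.Helper58.QD Pool.Agent.Helper14.SS
open Pool.Agent.Helper31.QD (Au)
open Pool.Agent.Helper38.MC (AuG StmtHomA)
open Pool.Agent.Helper40.MC (FinAP)

/-- (helper53) structure theorem, with a progression -/
def StmtStructAp : Prop := ∀ (S : Type) [Finite S] (ar : S → ℕ) (φ : SFm (RelLang S ar) 0 0),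
  FamBdd φ → ((∃ C, ∀ n, 1 ≤ n → countM φ n ≤ C ^ n) ∧
      ((specM φ).Finite ∨ (specM φ)ᶜ.Finite)) ∨
    ∃ k, 2 ≤ k ∧ (∃ C a : ℕ, (∀ n, 1 ≤ n → countM φ n ^ k ≤ C ^ n * n ^ ((k - 1) * n)) ∧
      ∀ m : ℕ, (a + k * m) ^ ((k - 1) * (a + k * m)) ≤
        C ^ (a + k * m) * countM φ (a + k * m) ^ k) ∧ FinAP k (specM φ)

/-- lower bound at infinitely many `n` against upper bound at all `n ≥ 1` -/
lemma clash {N : ℕ → ℕ} {k l C D : ℕ} (hk : 1 ≤ k) (hkl : k < l)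
    (h1 : ∀ n, 1 ≤ n → N n ^ k ≤ C ^ n * n ^ ((k - 1) * n))
    (h2 : ∀ m : ℕ, ∃ n, m ≤ n ∧ n ^ ((l - 1) * n) ≤ D ^ n * N n ^ l) : False := by
  obtain ⟨n, hn, h3⟩ := h2 (C ^ l * D ^ k + 1)
  have hn1 : 1 ≤ n := by omega
  have h4 : (n ^ ((l - 1) * n)) ^ k ≤ (D ^ k * C ^ l) ^ n * n ^ ((k - 1) * n * l) := by
    calc (n ^ ((l - 1) * n)) ^ k ≤ (D ^ n * N n ^ l) ^ k := Nat.pow_le_pow_left h3 k
      _ = D ^ (n * k) * (N n ^ k) ^ l := by
          rw [mul_pow, ← pow_mul, ← pow_mul, ← pow_mul, mul_comm l k]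
      _ ≤ D ^ (n * k) * (C ^ n * n ^ ((k - 1) * n)) ^ l :=
          Nat.mul_le_mul_left _ (Nat.pow_le_pow_left (h1 n hn1) l)
      _ = _ := by
          rw [mul_pow, mul_pow, ← pow_mul, ← pow_mul, ← pow_mul, ← pow_mul, mul_comm n k,
            mul_comm n l]
          ring
  have h5 : (n ^ ((l - 1) * n)) ^ k = n ^ ((l - k) * n) * n ^ ((k - 1) * n * l) := by
    rw [← pow_mul, ← pow_add]
    congr 1
    obtain ⟨a, rfl⟩ : ∃ a, k = a + 1 := ⟨k - 1, by omega⟩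
    obtain ⟨b, rfl⟩ : ∃ b, l = a + 1 + (b + 1) := ⟨l - (a + 1) - 1, by omega⟩
    have e1 : a + 1 + (b + 1) - 1 = a + 1 + b := by omega
    have e2 : a + 1 + (b + 1) - (a + 1) = b + 1 := by omega
    rw [e1, e2, Nat.add_sub_cancel]
    ring
  rw [h5] at h4
  have h6 : n ^ ((l - k) * n) ≤ (D ^ k * C ^ l) ^ n :=
    Nat.le_of_mul_le_mul_right h4 (pow_pos (by omega) _)
  have h7 : n ^ n ≤ n ^ ((l - k) * n) := by
    apply Nat.pow_le_pow_right hn1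
    have : 1 * n ≤ (l - k) * n := Nat.mul_le_mul_right _ (by omega)
    omega
  have h8 : n ≤ D ^ k * C ^ l := (Nat.pow_le_pow_iff_left (by omega)).1 (h7.trans h6)
  have h9 : D ^ k * C ^ l = C ^ l * D ^ k := mul_comm _ _
  omega

/-- lower bounds for all `ε` against an upper bound -/
lemma clashC {N : ℕ → ℕ} {k C : ℕ} (hk : 1 ≤ k)
    (h1 : ∀ n, 1 ≤ n → N n ^ k ≤ C ^ n * n ^ ((k - 1) * n))
    (h2 : ∀ ε : ℝ, 0 < ε → ∀ m : ℕ, ∃ n, m ≤ n ∧ (n : ℝ) ^ ((1 - ε) * n) ≤ N n) : False := by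
  obtain ⟨n, hn, h3⟩ := h2 (1 / (2 * k)) (by positivity) (C ^ 2 + 1)
  have hn1 : 1 ≤ n := by omega
  have hnR : (0 : ℝ) < n := by exact_mod_cast hn1
  have hk0 : (0 : ℝ) < k := by exact_mod_cast hk
  have h4 : ((n : ℝ) ^ ((1 - 1 / (2 * k)) * n : ℝ)) ^ (2 * k : ℕ) ≤ (N n : ℝ) ^ (2 * k : ℕ) :=
    pow_le_pow_left₀ (by positivity) h3 _
  have h5 : ((n : ℝ) ^ ((1 - 1 / (2 * k)) * n : ℝ)) ^ (2 * k : ℕ) = (n : ℝ) ^ ((2 * k - 1) * n : ℕ) := by
    rw [← Real.rpow_natCast, ← Real.rpow_mul hnR.le, ← Real.rpow_natCast]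
    congr 1
    have h6 : ((2 * k - 1 : ℕ) : ℝ) = 2 * k - 1 := by
      rw [Nat.cast_sub (by omega)]
      push_cast
      ring
    push_cast
    rw [h6]
    field_simp
  rw [h5] at h4
  have h7 : n ^ ((2 * k - 1) * n) ≤ N n ^ (2 * k) := by exact_mod_cast h4
  have h8 : N n ^ (2 * k) ≤ (C ^ 2) ^ n * n ^ ((2 * k - 2) * n) := by
    calc N n ^ (2 * k) = (N n ^ k) ^ 2 := by rw [← pow_mul, mul_comm]
      _ ≤ (C ^ n * n ^ ((k - 1) * n)) ^ 2 := Nat.pow_le_pow_left (h1 n hn1) 2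
      _ = _ := by
        rw [mul_pow, ← pow_mul, ← pow_mul, ← pow_mul, mul_comm n 2]
        congr 2
        obtain ⟨a, rfl⟩ : ∃ a, k = a + 1 := ⟨k - 1, by omega⟩
        have e1 : 2 * (a + 1) - 2 = 2 * a := by omega
        rw [e1, Nat.add_sub_cancel]
        ring
  have h9 : n ^ ((2 * k - 1) * n) = n ^ n * n ^ ((2 * k - 2) * n) := by
    rw [← pow_add]
    congr 1
    obtain ⟨a, rfl⟩ : ∃ a, k = a + 1 := ⟨k - 1, by omega⟩
    have e1 : 2 * (a + 1) - 1 = 2 * a + 1 := by omega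
    have e2 : 2 * (a + 1) - 2 = 2 * a := by omega
    rw [e1, e2]
    ring
  rw [h9] at h7
  have h10 : n ^ n ≤ (C ^ 2) ^ n := Nat.le_of_mul_le_mul_right (h7.trans h8) (pow_pos (by omega) _)
  have h11 : n ≤ C ^ 2 := (Nat.pow_le_pow_iff_left (by omega)).1 h10
  omega

/-! ### The growth theorem -/

/-- The growth of `N` and the set `A` are of the type `k`: up to factors `C ^ n`, the number `N n`
is at most `n ^ ((1 - 1 / k) n)` for all `n ≥ 1` and, if `k ≥ 2`, at least that for all `n` in an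
arithmetic progression with difference `k`; and `A` is the union of a finite set and of finitely
many arithmetic progressions with differences at most `k`. -/
def Jump (k : ℕ) (N : ℕ → ℕ) (A : Set ℕ) : Prop :=
  (∃ C a : ℕ, (∀ n, 1 ≤ n → N n ^ k ≤ C ^ n * n ^ ((k - 1) * n)) ∧
    (2 ≤ k → ∀ m : ℕ, (a + k * m) ^ ((k - 1) * (a + k * m)) ≤
      C ^ (a + k * m) * N (a + k * m) ^ k)) ∧ FinAP k A

/-- For every `ε > 0` there are infinitely many `n` with `N n ≥ n ^ ((1 - ε) n)`. -/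
def Wild (N : ℕ → ℕ) : Prop :=
  ∀ ε : ℝ, 0 < ε → ∀ m : ℕ, ∃ n, m ≤ n ∧ (n : ℝ) ^ ((1 - ε) * n) ≤ N n

lemma Jump.low {k : ℕ} {N : ℕ → ℕ} {A : Set ℕ} (hk : 2 ≤ k) (h : Jump k N A) :
    ∃ C : ℕ, ∀ m : ℕ, ∃ n, m ≤ n ∧ n ^ ((k - 1) * n) ≤ C ^ n * N n ^ k := by
  obtain ⟨⟨C, a, -, h2⟩, -⟩ := h
  refine ⟨C, fun m => ⟨a + k * m, ?_, h2 hk m⟩⟩
  have : 1 * m ≤ k * m := Nat.mul_le_mul_right _ (by omega)
  omega

theorem Jump.unique {k l : ℕ} {N : ℕ → ℕ} {A B : Set ℕ} (hk : 1 ≤ k) (hl : 1 ≤ l)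
    (h : Jump k N A) (h' : Jump l N B) : k = l := by
  rcases Nat.lt_trichotomy k l with hkl | hkl | hkl
  · obtain ⟨D, hD⟩ := h'.low (by omega)
    obtain ⟨⟨C, a, h1, -⟩, -⟩ := h
    exact (clash hk hkl h1 hD).elim
  · exact hkl
  · obtain ⟨D, hD⟩ := h.low (by omega)
    obtain ⟨⟨C, a, h1, -⟩, -⟩ := h'
    exact (clash hl hkl h1 hD).elim

theorem Jump.not_wild {k : ℕ} {N : ℕ → ℕ} {A : Set ℕ} (hk : 1 ≤ k) (h : Jump k N A) : ¬ Wild N := by
  obtain ⟨⟨C, a, h1, -⟩, -⟩ := h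
  exact fun h2 => clashC hk h1 h2

lemma finAP_one {A : Set ℕ} (h : A.Finite ∨ Aᶜ.Finite) : FinAP 1 A := by
  rcases h with h | h
  · refine ⟨h.toFinset, ∅, by simp, ?_⟩
    ext n
    simp
  · obtain ⟨b, hb⟩ := h.bddAbove
    have hb' : ∀ n, b < n → n ∈ A := fun n hn => by
      by_contra hc
      exact absurd (hb hc) (by omega)
    classical
    refine ⟨(Finset.range (b + 1)).filter (· ∈ A), {(b + 1, 1)}, by simp, ?_⟩
    ext n
    simp only [Set.mem_ofPred_eq, Finset.mem_filter, Finset.mem_range, Finset.mem_singleton,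
      exists_eq_left]
    constructor
    · intro hn
      rcases Nat.lt_or_ge n (b + 1) with h1 | h1
      · exact Or.inl ⟨h1, hn⟩
      · exact Or.inr ⟨n - (b + 1), by omega⟩
    · rintro (⟨-, hn⟩ | ⟨j, rfl⟩)
      · exact hn
      · exact hb' _ (by omega)

/-- the structure theorem in this form -/
theorem jump_of (hS : StmtStructAp) (S : Type) [Finite S] (ar : S → ℕ)
    (φ : SFm (RelLang S ar) 0 0) (hB : FamBdd φ) : ∃ k, 1 ≤ k ∧ Jump k (countM φ) (specM φ) := by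
  rcases hS S ar φ hB with ⟨⟨C, hC⟩, h2⟩ | ⟨k, hk, ⟨C, a, h1, h2⟩, h3⟩
  · refine ⟨1, le_rfl, ⟨C, 0, fun n hn => ?_, fun h => absurd h (by omega)⟩,
      finAP_one h2⟩
    simpa using hC n hn
  · exact ⟨k, by omega, ⟨C, a, h1, fun _ => h2⟩, h3⟩

/-- the growth theorem: exactly one case -/
theorem growth_of (hS : StmtStructAp) (S : Type) [Finite S] (ar : S → ℕ)
    (φ : SFm (RelLang S ar) 0 0) :
    (¬ Wild (countM φ) ∧ ∃! k, 1 ≤ k ∧ Jump k (countM φ) (specM φ)) ∨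
      (Wild (countM φ) ∧ ∀ k, 1 ≤ k → ¬ Jump k (countM φ) (specM φ)) := by
  by_cases hC : Wild (countM φ)
  · exact Or.inr ⟨hC, fun k hk h => h.not_wild hk hC⟩
  · obtain ⟨k, hk, h⟩ := jump_of hS S ar φ (famBdd_of_not φ hC)
    exact Or.inl ⟨hC, k, ⟨hk, h⟩, fun l ⟨hl, h'⟩ => h'.unique hl hk h⟩

/-- first-order sentences: the sharp bound in the last case -/
theorem sharp_of (hS : StmtStructAp) (hT : StmtSharp) (r : ℕ) : ∃ C : ℕ, ∀ (S : Type) [Finite S]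
    (ar : S → ℕ) (χ : (RelLang S ar).Sentence), (∀ s, ar s ≤ r) →
    (∃ k, 1 ≤ k ∧ Jump k (count χ) (Pool.Agent.Helper40.MC.spec χ)) ∨
      ∀ m : ℕ, ∃ n, m ≤ n ∧ n.factorial < count χ n * (Nat.log 2 n + 1) ^ (C * n) := by
  obtain ⟨C, hC⟩ := hT r
  refine ⟨C, fun S _ ar χ har => ?_⟩
  by_cases h : ∀ᶠ n : ℕ in Filter.atTop, count χ n * (Nat.log 2 n + 1) ^ (C * n) ≤ n.factorial
  · left
    obtain ⟨k, hk, h1⟩ := jump_of hS S ar (toM χ) (hC S ar χ har h)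
    rw [show countM (toM χ) = count χ from funext (countM_toM χ), specM_toM] at h1
    exact ⟨k, hk, h1⟩
  · right
    intro m
    rw [Filter.eventually_atTop] at h
    push Not at h
    exact h m

/-- first-order sentences: exactly one case, with the sharp bound -/
theorem growthFO_of (hS : StmtStructAp) (hT : StmtSharp) (r : ℕ) : ∃ C : ℕ, ∀ (S : Type) [Finite S]
    (ar : S → ℕ) (χ : (RelLang S ar).Sentence), (∀ s, ar s ≤ r) →
    (¬ Wild (count χ) ∧ ∃! k, 1 ≤ k ∧ Jump k (count χ) (Pool.Agent.Helper40.MC.spec χ)) ∨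
      (Wild (count χ) ∧ (∀ k, 1 ≤ k → ¬ Jump k (count χ) (Pool.Agent.Helper40.MC.spec χ)) ∧
        ∀ m : ℕ, ∃ n, m ≤ n ∧ n.factorial < count χ n * (Nat.log 2 n + 1) ^ (C * n)) := by
  obtain ⟨C, hC⟩ := sharp_of hS hT r
  refine ⟨C, fun S _ ar χ har => ?_⟩
  have h := growth_of hS S ar (toM χ)
  rw [show countM (toM χ) = count χ from funext (countM_toM χ), specM_toM] at h
  rcases h with h | ⟨h1, h2⟩
  · exact Or.inl h
  · refine Or.inr ⟨h1, h2, ?_⟩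
    rcases hC S ar χ har with ⟨k, hk, h3⟩ | h3
    · exact absurd h3 (h2 k hk)
    · exact h3

/-! ### The wild side -/

/-- spectra of first-order sentences with `N(n) K ^ n ≤ n!` for large `n` -/
def FacSpectrum (K : ℕ) (A : Set ℕ) : Prop :=
  ∃ (S : Type) (_ : Finite S) (ar : S → ℕ) (χ : (RelLang S ar).Sentence),
    (∀ᶠ n : ℕ in Filter.atTop, count χ n * K ^ n ≤ n.factorial) ∧
      A = Pool.Agent.Helper40.MC.spec χ

/-- spectra of monadic second-order sentences with `N(n) K ^ n ≤ n!` for large `n` -/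
def MFacSpectrum (K : ℕ) (A : Set ℕ) : Prop :=
  ∃ (S : Type) (_ : Finite S) (ar : S → ℕ) (φ : SFm (RelLang S ar) 0 0),
    (∀ᶠ n : ℕ in Filter.atTop, countM φ n * K ^ n ≤ n.factorial) ∧ A = specM φ

theorem spec_isSpectrum {S : Type} [Finite S] {ar : S → ℕ} (χ : (RelLang S ar).Sentence) :
    IsSpectrum (Pool.Agent.Helper40.MC.spec χ) := by
  refine ⟨RelLang S ar, inferInstance, inferInstance, χ, ?_⟩
  ext n
  constructor
  · rintro ⟨hn, R, hR⟩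
    exact ⟨hn, Fin n, mkS R, inferInstance, Fintype.card_fin n, hR⟩
  · rintro ⟨hn, M, hM, hf, hc, hr⟩
    refine ⟨hn, ?_⟩
    let e : M ≃ Fin n := Fintype.equivFinOfCardEq hc
    refine ⟨_, (Pool.Agent.Helper38.QD.isMod_equiv χ e
      (fun s v => hM.RelMap (⟨s, rfl⟩ : (RelLang S ar).Relations (ar s)) v)).1 ?_⟩
    unfold IsMod
    rw [← structure_eq hM]
    exact hr

theorem FacSpectrum.isSpectrum {K : ℕ} {A : Set ℕ} (h : FacSpectrum K A) : IsSpectrum A := by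
  obtain ⟨S, hS, ar, χ, -, rfl⟩ := h
  exact spec_isSpectrum χ

/-- the wild side: a universal set, rudimentary sets, sets outside the polynomial hierarchy -/
theorem wild_fac (hW : StmtWildK) (K : ℕ) :
    (∃ U, FacSpectrum K U ∧ ∀ A : Set ℕ, IsSpectrum A ↔
      ∃ q : Polynomial ℕ, A = {n : ℕ | 1 ≤ n ∧ q.eval n ∈ U}) ∧
    ((∀ A : Set ℕ, FacSpectrum K A → IsRudimentary A) ↔
      ∀ A : Set ℕ, IsSpectrum A ↔ (IsRudimentary A ∧ 0 ∉ A)) := by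
  obtain ⟨S, hS, ar, χ, h1, h2⟩ := hW K
  have hU : FacSpectrum K (MC.spec χ) := ⟨S, hS, ar, χ, h1, rfl⟩
  refine ⟨⟨MC.spec χ, hU, fun A => ⟨h2 A, ?_⟩⟩, fun h3 A => ⟨fun hA => ⟨?_, hA.zero_notMem⟩,
    fun ⟨h4, h5⟩ => h4.isSpectrum h5⟩, fun h3 A hA => ((h3 A).1 hA.isSpectrum).1⟩
  · rintro ⟨q, rfl⟩
    exact preimage_isSpectrum hU.isSpectrum q
  · obtain ⟨q, rfl⟩ := h2 A hA
    exact (h3 _ hU).preimage q

theorem wild_facM (hW : StmtWildMK) (K : ℕ) : ∃ A, MFacSpectrum K A ∧ ¬ PolyHier A := by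
  obtain ⟨S, hS, ar, φ, h1, h2⟩ := hW K
  exact ⟨specM φ, ⟨S, hS, ar, φ, h1, rfl⟩, h2⟩

end Pool.Agent.Helper40.MCM
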