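import Pool.Agent.Helper40.MC.MDefs
import Pool.Agent.Helper83.FM.Aut

/-!
# Few models: the tame side for monadic second-order logic and all arities
-/

set_option autoImplicit false

namespace Pool.Agent.Helper40.MCM

open FirstOrder FirstOrder.Language Pool.Agent.Helper20.Spectra Pool.Agent.Helper58.QD
open Pool.Agent.Helper14.SS
open Pool.Agent.Helper31.QD (Au)
open Pool.Agent.Helper38.MC (AuG StmtHomA)

variable {S : Type} {ar : S → ℕ}

/-- invariance under isomorphisms -/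
theorem holds_equiv {M N : Type} (e : M ≃ N) (R : Interp S ar M) (b : ℕ) {k m : ℕ}
    (φ : SFm (RelLang S ar) k m) : ∀ (v : Fin k → M) (V : Fin m → Finset M),
    @SFm.Holds _ N (mkS (fun s w => R s (e.symm ∘ w))) b k m φ (e ∘ v)
      (fun j => (V j).map e.toEmbedding) ↔ @SFm.Holds _ M (mkS R) b k m φ v V := by
  let _ := mkS R
  let _ := mkS (fun s (w : Fin (ar s) → N) => R s (e.symm ∘ w))
  let E : M ≃[RelLang S ar] N :=
    { e with
      map_fun' := fun f => Empty.elim f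
      map_rel' := by
        intro n r x
        show R r.1 _ ↔ R r.1 _
        have : (e.symm ∘ fun i => (e ∘ x) (Fin.cast r.2 i)) = fun i => x (Fin.cast r.2 i) := by
          funext i
          simp
        exact Iff.of_eq (congrArg _ this) }
  induction φ with
  | fo φ =>
    intro v V
    exact StrongHomClass.realize_formula E φ (v := v)
  | mem i j =>
    intro v V
    show e (v i) ∈ (V j).map e.toEmbedding ↔ v i ∈ V j
    rw [Finset.mem_map]
    constructor
    · rintro ⟨x, hx, hx'⟩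
      have : x = v i := e.injective hx'
      exact this ▸ hx
    · intro h
      exact ⟨v i, h, rfl⟩
  | not φ ih => intro v V; exact not_congr (ih v V)
  | and φ ψ ih1 ih2 => intro v V; exact and_congr (ih1 v V) (ih2 v V)
  | ex φ ih =>
    intro v V
    constructor
    · rintro ⟨y, hy⟩
      refine ⟨e.symm y, (ih _ _).1 ?_⟩
      have h1 : (e ∘ (Fin.cons (e.symm y) v : Fin _ → M)) = Fin.cons y (e ∘ v) := by
        funext i
        refine Fin.cases ?_ (fun i => ?_) i
        · simp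
        · simp
      rw [h1]
      exact hy
    · rintro ⟨x, hx⟩
      refine ⟨e x, ?_⟩
      have h1 := (ih _ _).2 hx
      have h2 : (e ∘ (Fin.cons x v : Fin _ → M)) = Fin.cons (e x) (e ∘ v) := by
        funext i
        refine Fin.cases ?_ (fun i => ?_) i
        · simp
        · simp
      rw [h2] at h1
      exact h1
  | exSet φ ih =>
    intro v V
    constructor
    · rintro ⟨Y, hYb, hY⟩
      refine ⟨Y.map e.symm.toEmbedding, by rwa [Finset.card_map], (ih _ _).1 ?_⟩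
      have h1 : (fun j => ((Fin.cons (Y.map e.symm.toEmbedding) V : Fin _ → Finset M) j).map
          e.toEmbedding) = Fin.cons Y (fun j => (V j).map e.toEmbedding) := by
        funext j
        refine Fin.cases ?_ (fun j => ?_) j
        · rw [Fin.cons_zero, Fin.cons_zero, Finset.map_map]
          ext y
          simp
        · rw [Fin.cons_succ, Fin.cons_succ]
      rw [h1]
      exact hY
    · rintro ⟨X, hXb, hX⟩
      refine ⟨X.map e.toEmbedding, by rwa [Finset.card_map], ?_⟩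
      have h1 := (ih _ _).2 hX
      have h2 : (fun j => ((Fin.cons X V : Fin _ → Finset M) j).map
          e.toEmbedding) = Fin.cons (X.map e.toEmbedding) (fun j => (V j).map e.toEmbedding) := by
        funext j
        refine Fin.cases ?_ (fun j => ?_) j
        · rw [Fin.cons_zero, Fin.cons_zero]
        · rw [Fin.cons_succ, Fin.cons_succ]
      rw [h2] at h1
      exact h1

theorem satM_equiv (φ : SFm (RelLang S ar) 0 0) {M N : Type} [Fintype M] [Fintype N] (e : M ≃ N)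
    (R : Interp S ar M) : SatM φ (fun s w => R s (e.symm ∘ w)) ↔ SatM φ R := by
  unfold SatM
  have h := holds_equiv e R (Fintype.card M) φ Fin.elim0 Fin.elim0
  rw [← Fintype.card_congr e]
  have e1 : (e ∘ (Fin.elim0 : Fin 0 → M)) = Fin.elim0 := Subsingleton.elim _ _
  have e2 : (fun j => ((Fin.elim0 : Fin 0 → Finset M) j).map e.toEmbedding) = Fin.elim0 :=
    Subsingleton.elim _ _
  rw [e1, e2] at h
  exact h

theorem satM_perm (φ : SFm (RelLang S ar) 0 0) {M : Type} [Fintype M] (σ : Equiv.Perm M)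
    {R : Interp S ar M} (h : SatM φ R) : SatM φ (fun s w => R s (σ ∘ w)) :=
  (satM_equiv φ σ.symm R).2 h

/-- `n! ≤ N |Aut|` -/
theorem factorial_leM [Finite S] {φ : SFm (RelLang S ar) 0 0} {n : ℕ}
    {R : Interp S ar (Fin n)} (hR : SatM φ R) :
    n.factorial ≤ countM φ n * Nat.card (AuG R) := by
  classical
  have : Finite (Interp S ar (Fin n)) := Pi.finite
  have := Fintype.ofFinite {R : Interp S ar (Fin n) // SatM φ R}
  let Φ : Equiv.Perm (Fin n) → {R : Interp S ar (Fin n) // SatM φ R} := fun σ =>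
    ⟨fun s w => R s (σ ∘ w), satM_perm φ σ hR⟩
  have h1 := Finset.card_le_mul_card_image (f := Φ) (Finset.univ : Finset (Equiv.Perm (Fin n)))
    (Nat.card (AuG R)) (by
      intro a ha
      obtain ⟨σ0, _, rfl⟩ := Finset.mem_image.1 ha
      have h2 : Nat.card (AuG R) =
          (Finset.univ.filter fun σ : Equiv.Perm (Fin n) => Au R σ).card := by
        have : Nat.card (AuG R) = Nat.card {σ : Equiv.Perm (Fin n) // Au R σ} := rfl
        rw [this, Nat.card_eq_fintype_card, Fintype.card_subtype]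
      rw [h2]
      refine Finset.card_le_card_of_injOn (fun σ => σ * σ0⁻¹) ?_ ?_
      · intro σ hσ
        have h3 : Φ σ = Φ σ0 := (Finset.mem_filter.1 (Finset.mem_coe.1 hσ)).2
        have h4 := congrArg Subtype.val h3
        rw [Finset.mem_coe, Finset.mem_filter]
        refine ⟨Finset.mem_univ _, ?_⟩
        intro s t
        have h5 : R s (σ ∘ (⇑σ0⁻¹ ∘ t)) = R s (σ0 ∘ (⇑σ0⁻¹ ∘ t)) :=
          congrFun (congrFun h4 s) (⇑σ0⁻¹ ∘ t)
        have e1 : (⇑(σ * σ0⁻¹) ∘ t) = σ ∘ (⇑σ0⁻¹ ∘ t) := by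
          funext j
          simp
        have e2 : (σ0 ∘ (⇑σ0⁻¹ ∘ t)) = t := by
          funext j
          simp
        rw [e1, h5, e2]
      · intro σ _ τ _ h
        exact mul_right_cancel h)
  have h2 : (Finset.univ : Finset (Equiv.Perm (Fin n))).card = n.factorial := by
    rw [Finset.card_univ, Fintype.card_perm, Fintype.card_fin]
  rw [h2] at h1
  refine h1.trans ?_
  rw [mul_comm]
  refine Nat.mul_le_mul_right _ ?_
  have h3 : countM φ n = Fintype.card {R : Interp S ar (Fin n) // SatM φ R} :=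
    Nat.card_eq_fintype_card
  rw [h3]
  exact Finset.card_le_univ _

/-- numerics: `n ^ ((1 / (k + 1) + ε) n) ≤ n! / n ^ (c n)` -/
lemma num_aux (k : ℕ) {c ε : ℝ} (h : 1 / ((k : ℝ) + 1) + ε < 1 - c) :
    ∀ᶠ n : ℕ in Filter.atTop, ∀ N G : ℕ, (N : ℝ) ≤ (n : ℝ) ^ (c * n) → n.factorial ≤ N * G →
      (n : ℝ) ^ ((1 / ((k : ℝ) + 1) + ε) * n) ≤ (G : ℝ) := by
  have hδ : 0 < 1 - c - (1 / ((k : ℝ) + 1) + ε) := by linarith
  -- eventually `3 ≤ n ^ δ`
  have h1 : ∀ᶠ n : ℕ in Filter.atTop, (3 : ℝ) ≤ (n : ℝ) ^ (1 - c - (1 / ((k : ℝ) + 1) + ε)) :=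
    ((tendsto_rpow_atTop hδ).comp tendsto_natCast_atTop_atTop).eventually_ge_atTop 3
  filter_upwards [h1, Filter.eventually_ge_atTop 1] with n hn hn1 N G hN hG
  have hn0 : (0 : ℝ) < n := by exact_mod_cast hn1
  have h2 := Pool.Agent.Helper83.FM.pow_self_le n
  have h3 : (n : ℝ) ^ n ≤ 3 ^ n * ((N : ℝ) * G) := by
    have h4 : (n : ℝ) ^ n ≤ 3 ^ n * (n.factorial : ℝ) := by exact_mod_cast h2
    have h5 : (n.factorial : ℝ) ≤ (N : ℝ) * G := by exact_mod_cast hG
    exact h4.trans (mul_le_mul_of_nonneg_left h5 (by positivity))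
  have h4 : (3 : ℝ) ^ n ≤ (n : ℝ) ^ ((1 - c - (1 / ((k : ℝ) + 1) + ε)) * n) := by
    rw [Real.rpow_mul hn0.le, Real.rpow_natCast]
    exact pow_le_pow_left₀ (by norm_num) hn n
  have h5 : (n : ℝ) ^ n ≤ (n : ℝ) ^ ((1 - c - (1 / ((k : ℝ) + 1) + ε)) * n) *
      ((n : ℝ) ^ (c * n) * G) := by
    refine h3.trans (mul_le_mul h4 (mul_le_mul_of_nonneg_right hN (Nat.cast_nonneg _))
      (by positivity) (Real.rpow_nonneg hn0.le _))
  have h6 : (n : ℝ) ^ n = (n : ℝ) ^ ((1 - c - (1 / ((k : ℝ) + 1) + ε)) * n) *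
      ((n : ℝ) ^ (c * n) * (n : ℝ) ^ ((1 / ((k : ℝ) + 1) + ε) * n)) := by
    rw [← Real.rpow_add hn0, ← Real.rpow_add hn0, ← Real.rpow_natCast]
    congr 1
    ring
  rw [h6] at h5
  have h7 := le_of_mul_le_mul_left h5 (Real.rpow_pos_of_pos hn0 _)
  exact le_of_mul_le_mul_left h7 (Real.rpow_pos_of_pos hn0 _)

theorem tameM (hH : StmtHomA) (hP : StmtPumpM) : StmtTameM := by
  intro S _ ar φ c hc
  have hk1 : 1 / (1 - c) < (⌊1 / (1 - c)⌋₊ : ℝ) + 1 := Nat.lt_floor_add_one _
  obtain ⟨k, hk⟩ : ∃ k, k = ⌊1 / (1 - c)⌋₊ := ⟨_, rfl⟩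
  rw [← hk] at hk1 ⊢
  have hc' : 0 < 1 - c := by linarith
  have hk2 : 1 / ((k : ℝ) + 1) < 1 - c := by
    rw [div_lt_iff₀ hc'] at hk1
    rw [div_lt_iff₀ (by positivity)]
    linarith [mul_comm ((k : ℝ) + 1) (1 - c)]
  obtain ⟨ε, hε, hε'⟩ : ∃ ε : ℝ, 0 < ε ∧ 1 / ((k : ℝ) + 1) + ε < 1 - c :=
    ⟨(1 - c - 1 / ((k : ℝ) + 1)) / 2, by linarith, by linarith⟩
  choose q₀ hq₀ using fun t => hP S ar φ t
  obtain ⟨q, hq⟩ : ∃ q, q = 1 + ∑ t ∈ Finset.range (k + 1), q₀ t := ⟨_, rfl⟩
  obtain ⟨n₁, hn₁⟩ := Filter.eventually_atTop.1 ((num_aux k hε').and (hH S ar k q ε hε))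
  refine ⟨n₁, fun n hn hnn hcount => ?_⟩
  obtain ⟨hn0, R, hR⟩ := hn
  obtain ⟨hA, hB⟩ := hn₁ n hnn
  obtain ⟨t, ht1, htk, u, hu, hu'⟩ := hB R (hA (countM φ n) _ hcount (factorial_leM hR))
  have hqt : q₀ t ≤ q := by
    rw [hq]
    have h1 : t ∈ Finset.range (k + 1) := Finset.mem_range.2 (by omega)
    have h2 := Finset.single_le_sum (f := q₀) (s := Finset.range (k + 1))
      (fun _ _ => Nat.zero_le _) h1
    omega
  exact ⟨t, ht1, htk, fun j => ⟨by omega, hq₀ t q hqt (by omega) n R hR u hu hu' j⟩⟩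

end Pool.Agent.Helper40.MCM
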