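import Pool.Agent.Helper40.MC.TameM
import Pool.Agent.Helper20.MC.Real
import Pool.Agent.Helper12.MC.AP
import Pool.Agent.Helper20.Spectra.TwoFin
import Pool.Agent.Helper14.QG.H0
import Pool.Agent.Helper6.MC.PumpD

/-!
# Numbers of models and spectra: assembly
-/

set_option autoImplicit false

namespace Pool.Agent.Helper40.MCM

open FirstOrder FirstOrder.Language Pool.Agent.Helper20.Spectra Pool.Agent.Helper58.QD
open Pool.Agent.Helper14.SS
open Pool.Agent.Helper31.QD (Au)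
open Pool.Agent.Helper40.MC (FinAP APk)

variable {S : Type} {ar : S → ℕ}

/-- first-order sentences as sentences of monadic second-order logic -/
def toM (χ : (RelLang S ar).Sentence) : SFm (RelLang S ar) 0 0 :=
  .fo (χ.relabel (Empty.elim : Empty → Fin 0))

lemma satM_toM (χ : (RelLang S ar).Sentence) {M : Type} [Fintype M] (R : Interp S ar M) :
    SatM (toM χ) R ↔ IsMod χ R := by
  let _ := mkS R
  show (χ.relabel (Empty.elim : Empty → Fin 0)).Realize (Fin.elim0 : Fin 0 → M) ↔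
    Formula.Realize χ default
  rw [Formula.realize_relabel]
  exact Iff.of_eq (congrArg _ (Subsingleton.elim _ _))

lemma countM_toM (χ : (RelLang S ar).Sentence) (n : ℕ) : countM (toM χ) n = count χ n :=
  Nat.card_congr (Equiv.subtypeEquivRight (fun R => satM_toM χ R))

lemma specM_toM (χ : (RelLang S ar).Sentence) : specM (toM χ) = MC.spec χ := by
  ext n
  exact and_congr_right (fun _ => exists_congr (fun R => satM_toM χ R))

theorem CountSpectrum.toM {c : ℝ} {A : Set ℕ} (h : CountSpectrum c A) : MCountSpectrum c A := by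
  obtain ⟨S, hS, ar, χ, h1, h2⟩ := h
  refine ⟨S, hS, ar, MCM.toM χ, ?_, by rw [specM_toM, h2]⟩
  filter_upwards [h1] with n hn
  rwa [countM_toM]

theorem CountSpectrum.mono {c d : ℝ} (hcd : c ≤ d) {A : Set ℕ} (h : CountSpectrum c A) :
    CountSpectrum d A := by
  obtain ⟨S, hS, ar, χ, h1, h2⟩ := h
  refine ⟨S, hS, ar, χ, ?_, h2⟩
  filter_upwards [h1, Filter.eventually_ge_atTop 1] with n hn hn1
  refine hn.trans (Real.rpow_le_rpow_of_exponent_le (by exact_mod_cast hn1) ?_)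
  exact mul_le_mul_of_nonneg_right hcd (Nat.cast_nonneg _)

theorem MCountSpectrum.mono {c d : ℝ} (hcd : c ≤ d) {A : Set ℕ} (h : MCountSpectrum c A) :
    MCountSpectrum d A := by
  obtain ⟨S, hS, ar, χ, h1, h2⟩ := h
  refine ⟨S, hS, ar, χ, ?_, h2⟩
  filter_upwards [h1, Filter.eventually_ge_atTop 1] with n hn hn1
  refine hn.trans (Real.rpow_le_rpow_of_exponent_le (by exact_mod_cast hn1) ?_)
  exact mul_le_mul_of_nonneg_right hcd (Nat.cast_nonneg _)

theorem CountSpectrum.isSpectrum {c : ℝ} {A : Set ℕ} (h : CountSpectrum c A) : IsSpectrum A := by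
  obtain ⟨S, hS, ar, χ, -, rfl⟩ := h
  refine ⟨RelLang S ar, inferInstance, inferInstance, χ, ?_⟩
  ext n
  constructor
  · rintro ⟨hn, R, hR⟩
    exact ⟨hn, Fin n, mkS R, inferInstance, Fintype.card_fin n, hR⟩
  · rintro ⟨hn, M, hM, hf, hc, hr⟩
    refine ⟨hn, ?_⟩
    let e : M ≃ Fin n := Fintype.equivFinOfCardEq hc
    refine ⟨_, (Pool.Agent.Helper38.QD.isMod_equiv χ e
      (fun s v => hM.RelMap (⟨s, rfl⟩ : (RelLang S ar).Relations (ar s)) v)).1 ?_⟩
    unfold IsMod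
    rw [← structure_eq hM]
    exact hr

/-- the staircase -/
theorem staircase (hT : StmtTameM) {c : ℝ} (hc : c < 1) (A : Set ℕ) :
    (CountSpectrum c A ↔ 0 ∉ A ∧ FinAP ⌊1 / (1 - c)⌋₊ A) ∧
      (MCountSpectrum c A ↔ 0 ∉ A ∧ FinAP ⌊1 / (1 - c)⌋₊ A) := by
  have h1 : MCountSpectrum c A → 0 ∉ A ∧ FinAP ⌊1 / (1 - c)⌋₊ A := by
    rintro ⟨S, hS, ar, φ, hcount, rfl⟩
    refine ⟨fun h => absurd h.1 (by omega), (Pool.Agent.Helper12.MC.stmtAP _ _).1 ?_⟩
    obtain ⟨n₁, hn₁⟩ := hT S ar φ c hc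
    obtain ⟨n₂, hn₂⟩ := Filter.eventually_atTop.1 hcount
    exact ⟨max n₁ n₂, fun n hn hnn => hn₁ n hn (le_of_max_le_left hnn)
      (hn₂ n (le_of_max_le_right hnn))⟩
  have h2 : 0 ∉ A ∧ FinAP ⌊1 / (1 - c)⌋₊ A → CountSpectrum c A := by
    rintro ⟨h0, hA⟩
    obtain ⟨S, hS, ar, χ, -, h3, h4⟩ := Pool.Agent.Helper20.MC.convC c hc A h0
      ((Pool.Agent.Helper12.MC.stmtAP _ _).2 hA)
    exact ⟨S, hS, ar, χ, h3, h4⟩
  exact ⟨⟨fun h => h1 h.toM, h2⟩, ⟨h1, fun h => (h2 h).toM⟩⟩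

lemma preimage_isSpectrum {A : Set ℕ} (hA : IsSpectrum A) (q : Polynomial ℕ) :
    IsSpectrum {n : ℕ | 1 ≤ n ∧ q.eval n ∈ A} := by
  obtain ⟨k, Θ, hΘ⟩ := spectrum_blocks hA
  have h1 := squareSizes_preimage_isSpectrum Θ (q ^ (k + 1))
  convert h1 using 1
  ext n
  simp only [Set.mem_ofPred_eq, Polynomial.eval_pow]
  apply and_congr_right
  intro _
  rcases Nat.eq_zero_or_pos (q.eval n) with h0 | h0
  · rw [h0, zero_pow (by omega)]
    constructor
    · intro h2; exact absurd h2 hA.zero_notMem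
    · intro h2; exact absurd h2.1 (by omega)
  · exact hΘ _ h0

/-- a universal set in the class for `c = 1` -/
theorem universal (h : StmtWild1) {c : ℝ} (hc : 1 ≤ c) : ∃ U, CountSpectrum c U ∧
    ∀ A : Set ℕ, IsSpectrum A ↔ ∃ q : Polynomial ℕ, A = {n : ℕ | 1 ≤ n ∧ q.eval n ∈ U} := by
  obtain ⟨S, hS, ar, χ, h1, h2⟩ := h
  have hU : CountSpectrum 1 (MC.spec χ) := ⟨S, hS, ar, χ, h1, rfl⟩
  refine ⟨MC.spec χ, hU.mono hc, fun A => ⟨h2 A, ?_⟩⟩
  rintro ⟨q, rfl⟩
  exact preimage_isSpectrum hU.isSpectrum q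

theorem rud_iff (h : StmtWild1) {c : ℝ} (hc : 1 ≤ c) :
    (∀ A : Set ℕ, CountSpectrum c A → IsRudimentary A) ↔
      ∀ A : Set ℕ, IsSpectrum A ↔ (IsRudimentary A ∧ 0 ∉ A) := by
  constructor
  · intro h1 A
    constructor
    · intro hA
      refine ⟨?_, hA.zero_notMem⟩
      obtain ⟨U, hU, hU'⟩ := universal h hc
      obtain ⟨q, rfl⟩ := (hU' A).1 hA
      exact (h1 U hU).preimage q
    · rintro ⟨h2, h3⟩
      exact h2.isSpectrum h3
  · intro h1 A hA
    exact ((h1 A).1 hA.isSpectrum).1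

end Pool.Agent.Helper40.MCM
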