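import Pool.Agent.Helper38.MC.HomA
import Pool.Agent.Helper38.MC.P4
import Pool.Agent.Helper83.AA.P5
import Pool.Agent.Helper12.MC.P3
import Pool.Agent.Helper53.MC.NumA
import Pool.Agent.Helper40.MC.Main

set_option autoImplicit false

namespace Pool.Agent.Helper40.MCM

open Pool.Agent.Helper38.MC

theorem stmtHomA0 : StmtHomA :=
  Pool.Agent.Helper38.MC.stmtHomA (Pool.Agent.Helper83.AA.p5 Pool.Agent.Helper12.MC.stmtP3
    Pool.Agent.Helper38.MC.stmtP4) Pool.Agent.Helper53.MC.p6

theorem stmtTameM0 : StmtTameM := tameM stmtHomA0 Pool.Agent.Helper6.MC.stmtPumpM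

end Pool.Agent.Helper40.MCM
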