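import Pool.Agent.Helper40.MC.Growth
import Pool.Agent.Helper40.MC.WildM2

/-!
# Growth of the number of models: exactly one case, with exponential polynomials
-/

set_option autoImplicit false

namespace Pool.Agent.Helper40.MCM

open FirstOrder Pool.Agent.Helper20.Spectra Pool.Agent.Helper58.QD Pool.Agent.Helper14.SS
open Pool.Agent.Helper40.MC (FinAP)

/-- `N n = p_1(n) 1 ^ n + ... + p_m(n) m ^ n` for all large `n`, where the `p_j` are polynomials
with rational coefficients. -/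
def ExpPoly (N : ℕ → ℕ) : Prop :=
  ∃ (m : ℕ) (p : Fin m → Polynomial ℚ), ∀ᶠ n : ℕ in Filter.atTop,
    (N n : ℚ) = ∑ j, (p j).eval (n : ℚ) * ((j : ℕ) + 1 : ℚ) ^ n

/-- The growth of `N` and the set `A` are of the type `k`: the set `A` is the union of a finite set
and of finitely many arithmetic progressions with differences at most `k`; up to factors `C ^ n`,
the number `N n` is at most `n ^ ((1 - 1 / k) n)` for all `n ≥ 1` and, if `k ≥ 2`, at least that for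
all `n` in an arithmetic progression with difference `k`; and if `k = 1`, then `N` is an exponential
polynomial for all large `n`. -/
def Tame (k : ℕ) (N : ℕ → ℕ) (A : Set ℕ) : Prop :=
  FinAP k A ∧ (k = 1 → ExpPoly N) ∧
    ∃ C a : ℕ, (∀ n, 1 ≤ n → N n ^ k ≤ C ^ n * n ^ ((k - 1) * n)) ∧
      (2 ≤ k → ∀ m : ℕ, (a + k * m) ^ ((k - 1) * (a + k * m)) ≤
        C ^ (a + k * m) * N (a + k * m) ^ k)

theorem Tame.jump {k : ℕ} {N : ℕ → ℕ} {A : Set ℕ} (h : Tame k N A) : Jump k N A := ⟨h.2.2, h.1⟩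

/-- (helper83) the exponential regime -/
def StmtExp : Prop := ∀ (S : Type) [Finite S] (ar : S → ℕ) (φ : SFm (RelLang S ar) 0 0) (C : ℕ),
  (∀ n, 1 ≤ n → countM φ n ≤ C ^ n) → ExpPoly (countM φ)

theorem tame_of (hE : StmtExp) (S : Type) [Finite S] (ar : S → ℕ)
    (φ : SFm (RelLang S ar) 0 0) {k : ℕ} (h : Jump k (countM φ) (specM φ)) :
    Tame k (countM φ) (specM φ) := by
  refine ⟨h.2, ?_, h.1⟩
  rintro rfl
  obtain ⟨⟨C, a, h1, -⟩, -⟩ := h
  exact hE S ar φ C fun n hn => by simpa using h1 n hn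

/-- the growth theorem: exactly one case -/
theorem growthM2 (hS : StmtStructAp) (hE : StmtExp) (S : Type) [Finite S] (ar : S → ℕ)
    (φ : SFm (RelLang S ar) 0 0) :
    (¬ Wild (countM φ) ∧ ∃! k, 1 ≤ k ∧ Tame k (countM φ) (specM φ)) ∨
      (Wild (countM φ) ∧ ∀ k, 1 ≤ k → ¬ Tame k (countM φ) (specM φ)) := by
  rcases growth_of hS S ar φ with ⟨h1, k, ⟨hk, h2⟩, h3⟩ | ⟨h1, h2⟩
  · exact Or.inl ⟨h1, k, ⟨hk, tame_of hE S ar φ h2⟩, fun l ⟨hl, h⟩ => h3 l ⟨hl, h.jump⟩⟩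
  · exact Or.inr ⟨h1, fun k hk h => h2 k hk h.jump⟩

/-- first-order sentences: exactly one case, with the sharp bound -/
theorem growthFO2 (hS : StmtStructAp) (hE : StmtExp) (hT : StmtSharp) (r : ℕ) : ∃ C : ℕ,
    ∀ (S : Type) [Finite S] (ar : S → ℕ) (χ : (RelLang S ar).Sentence), (∀ s, ar s ≤ r) →
    (¬ Wild (count χ) ∧ ∃! k, 1 ≤ k ∧ Tame k (count χ) (Pool.Agent.Helper40.MC.spec χ)) ∨
      (Wild (count χ) ∧ (∀ k, 1 ≤ k → ¬ Tame k (count χ) (Pool.Agent.Helper40.MC.spec χ)) ∧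
        ∀ m : ℕ, ∃ n, m ≤ n ∧ n.factorial < count χ n * (Nat.log 2 n + 1) ^ (C * n)) := by
  obtain ⟨C, hC⟩ := growthFO_of hS hT r
  refine ⟨C, fun S _ ar χ har => ?_⟩
  have h := growthM2 hS hE S ar (toM χ)
  rw [show countM (toM χ) = count χ from funext (countM_toM χ), specM_toM] at h
  rcases hC S ar χ har with ⟨h1, -⟩ | ⟨h1, -, h3⟩
  · rcases h with h | h
    · exact Or.inl h
    · exact absurd h.1 h1
  · rcases h with h | h
    · exact absurd h1 h.1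
    · exact Or.inr ⟨h.1, h.2, h3⟩

/-! ### The border `n! / K ^ n` for binary first-order sentences -/

/-- (helper12) below `n! / K ^ n` for all `K`: finitely many progressions -/
def StmtBorder : Prop := ∀ (S : Type) [Finite S] (ar : S → ℕ), (∀ s, ar s ≤ 2) →
  ∀ χ : (RelLang S ar).Sentence,
    (∀ K : ℕ, ∀ᶠ n : ℕ in Filter.atTop, count χ n * K ^ n ≤ n.factorial) →
    ∃ k, FinAP k (Pool.Agent.Helper40.MC.spec χ)

/-- spectra of first-order sentences in symbols of arities at most `2` with `N(n) K ^ n ≤ n!` for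
all large `n` -/
def FacSpectrum2 (K : ℕ) (A : Set ℕ) : Prop :=
  ∃ (S : Type) (_ : Finite S) (ar : S → ℕ) (χ : (RelLang S ar).Sentence), (∀ s, ar s ≤ 2) ∧
    (∀ᶠ n : ℕ in Filter.atTop, count χ n * K ^ n ≤ n.factorial) ∧
      A = Pool.Agent.Helper40.MC.spec χ

theorem FacSpectrum2.isSpectrum {K : ℕ} {A : Set ℕ} (h : FacSpectrum2 K A) : IsSpectrum A := by
  obtain ⟨S, hS, ar, χ, -, -, rfl⟩ := h
  exact spec_isSpectrum χ

/-- the wild side: a universal set, rudimentary sets -/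
theorem wild_fac2 (K : ℕ) :
    (∃ U, FacSpectrum2 K U ∧ ∀ A : Set ℕ, IsSpectrum A ↔
      ∃ q : Polynomial ℕ, A = {n : ℕ | 1 ≤ n ∧ q.eval n ∈ U}) ∧
    ((∀ A : Set ℕ, FacSpectrum2 K A → IsRudimentary A) ↔
      ∀ A : Set ℕ, IsSpectrum A ↔ (IsRudimentary A ∧ 0 ∉ A)) := by
  obtain ⟨χ, h1, h2⟩ := Pool.Agent.Helper20.MC.twins K
  have hU : FacSpectrum2 K (MC.spec χ) := by
    refine ⟨Option Bool, inferInstance, Pool.Agent.Helper20.MC.oar Pool.Agent.Helper20.MC.ar2, χ,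
      ?_, Filter.Eventually.of_forall h1, rfl⟩
    rintro (_ | _ | _) <;> simp [Pool.Agent.Helper20.MC.oar, Pool.Agent.Helper20.MC.ar2]
  refine ⟨⟨MC.spec χ, hU, fun A => ⟨h2 A, ?_⟩⟩, fun h3 A => ⟨fun hA => ⟨?_, hA.zero_notMem⟩,
    fun ⟨h4, h5⟩ => h4.isSpectrum h5⟩, fun h3 A hA => ((h3 A).1 hA.isSpectrum).1⟩
  · rintro ⟨q, rfl⟩
    exact preimage_isSpectrum hU.isSpectrum q
  · obtain ⟨q, rfl⟩ := h2 A hA
    exact (h3 _ hU).preimage q

/-- spectra of monadic second-order sentences in symbols of arities at most `2` with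
`N(n) K ^ n ≤ n!` for all large `n` -/
def MFacSpectrum2 (K : ℕ) (A : Set ℕ) : Prop :=
  ∃ (S : Type) (_ : Finite S) (ar : S → ℕ) (φ : SFm (RelLang S ar) 0 0), (∀ s, ar s ≤ 2) ∧
    (∀ᶠ n : ℕ in Filter.atTop, countM φ n * K ^ n ≤ n.factorial) ∧ A = specM φ

theorem wild_facM2 (K : ℕ) : ∃ A, MFacSpectrum2 K A ∧ ¬ PolyHier A := by
  obtain ⟨S, hS, ar, φ, h0, h1, h2⟩ := Pool.Agent.Helper20.MC.stmtWildMK2 K
  exact ⟨specM φ, ⟨S, hS, ar, φ, h0, h1, rfl⟩, h2⟩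

end Pool.Agent.Helper40.MCM
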