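import Pool.Agent.Helper40.MC.Growth2

/-!
# Growth of the number of models: all `n`
-/

set_option autoImplicit false

namespace Pool.Agent.Helper40.MCM

open FirstOrder Pool.Agent.Helper20.Spectra Pool.Agent.Helper58.QD Pool.Agent.Helper14.SS
open Pool.Agent.Helper40.MC (FinAP)

/-- The growth of `N` and the set `A` are of the type `k`: the set `A` is the union of a finite set
and of finitely many arithmetic progressions with differences at most `k`; and there are sets `B t`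
such that, where `j n` is the greatest `t` in `{1, ..., k}` with `n % t` in `B t` (it exists for all
`n`, and it is `k` for some `n`), for all large `n`: if `j n = 1`, then `N n` is the value of an
exponential polynomial `P_1(n) 1 ^ n + ... + P_d(n) d ^ n` with rational coefficients; if `j n ≥ 2`,
then `N n` is `n ^ ((1 - 1 / j n) n)` up to a factor between `C ^ (-n)` and `C ^ n`. -/
def Growth (k : ℕ) (N : ℕ → ℕ) (A : Set ℕ) : Prop :=
  FinAP k A ∧ ∃ (B : ℕ → Set ℕ) (j : ℕ → ℕ),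
    (∀ n, IsGreatest {t | 1 ≤ t ∧ t ≤ k ∧ n % t ∈ B t} (j n)) ∧ (∃ n, j n = k) ∧
    ∃ (C d : ℕ) (P : Fin d → Polynomial ℚ), ∀ᶠ n : ℕ in Filter.atTop,
      (j n = 1 → (N n : ℚ) = ∑ i, (P i).eval (n : ℚ) * ((i : ℕ) + 1 : ℚ) ^ n) ∧
      (2 ≤ j n → N n ^ j n ≤ C ^ n * n ^ ((j n - 1) * n) ∧
        n ^ ((j n - 1) * n) ≤ C ^ n * N n ^ j n)

/-- (helper83) the number of models for all `n` -/
def StmtAll : Prop := ∀ (S : Type) [Finite S] (ar : S → ℕ) (φ : SFm (RelLang S ar) 0 0),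
  FamBdd φ → ∃ k, 1 ≤ k ∧ Growth k (countM φ) (specM φ)

/-! ### Numbers -/

lemma poly_le (P : Polynomial ℚ) : ∃ D : ℕ, ∀ n : ℕ, |P.eval (n : ℚ)| ≤ (D : ℚ) ^ (n + 1) := by
  induction P using Polynomial.induction_on' with
  | add P Q hP hQ =>
    obtain ⟨D, hD⟩ := hP
    obtain ⟨E, hE⟩ := hQ
    refine ⟨D + E, fun n => ?_⟩
    rw [Polynomial.eval_add]
    refine (abs_add_le _ _).trans ((add_le_add (hD n) (hE n)).trans ?_)
    push_cast
    exact pow_add_pow_le (by positivity) (by positivity) (by omega)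
  | monomial i a =>
    obtain ⟨b, hb⟩ := exists_nat_ge |a|
    refine ⟨b + 2 ^ i, fun n => ?_⟩
    rw [Polynomial.eval_monomial, abs_mul, abs_pow, Nat.abs_cast]
    have h1 : (n : ℚ) ^ i ≤ ((2 : ℚ) ^ i) ^ n := by
      rw [← pow_mul, mul_comm i n, pow_mul]
      apply pow_le_pow_left₀ (by positivity)
      exact_mod_cast (Nat.lt_two_pow_self (n := n)).le
    push_cast
    calc |a| * (n : ℚ) ^ i ≤ (b : ℚ) * ((2 : ℚ) ^ i) ^ n :=
          mul_le_mul hb h1 (by positivity) (by positivity)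
      _ ≤ ((b : ℚ) + 2 ^ i) * ((b : ℚ) + 2 ^ i) ^ n := by
          apply mul_le_mul
          · have : (0 : ℚ) ≤ 2 ^ i := by positivity
            linarith
          · apply pow_le_pow_left₀ (by positivity)
            have : (0 : ℚ) ≤ b := by positivity
            linarith
          · positivity
          · positivity
      _ = _ := by ring

/-- exponential polynomials are at most `D ^ n` -/
lemma expPoly_le {d : ℕ} (P : Fin d → Polynomial ℚ) : ∃ D : ℕ, 1 ≤ D ∧ ∀ n : ℕ, 1 ≤ n →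
    ∀ N : ℕ, (N : ℚ) = ∑ i, (P i).eval (n : ℚ) * ((i : ℕ) + 1 : ℚ) ^ n → N ≤ D ^ n := by
  choose D hD using fun i => poly_le (P i)
  obtain ⟨E, hE⟩ : ∃ E : ℕ, E = ∑ i, D i * ((i : ℕ) + 1) + 1 := ⟨_, rfl⟩
  have hE1 : 1 ≤ E := by omega
  refine ⟨E * E, Nat.mul_pos hE1 hE1, fun n hn N hN => ?_⟩
  have h1 : ∀ i, |(P i).eval (n : ℚ) * ((i : ℕ) + 1 : ℚ) ^ n| ≤
      ((D i * ((i : ℕ) + 1) : ℕ) : ℚ) ^ (n + 1) := by
    intro i
    rw [abs_mul]
    have h2 : |((i : ℕ) + 1 : ℚ) ^ n| ≤ ((i : ℕ) + 1 : ℚ) ^ (n + 1) := by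
      rw [abs_of_nonneg (by positivity)]
      apply pow_le_pow_right₀ _ (by omega)
      have : (0 : ℚ) ≤ (i : ℕ) := by positivity
      linarith
    push_cast
    rw [mul_pow]
    exact mul_le_mul (hD i n) h2 (abs_nonneg _) (by positivity)
  have h3 : (N : ℚ) ≤ ((E : ℕ) : ℚ) ^ (n + 1) := by
    rw [hN]
    refine (le_abs_self _).trans ((Finset.abs_sum_le_sum_abs _ _).trans ?_)
    refine (Finset.sum_le_sum fun i _ => h1 i).trans ?_
    have h4 : ∀ s : Finset (Fin d), ∑ i ∈ s, ((D i * ((i : ℕ) + 1) : ℕ) : ℚ) ^ (n + 1) ≤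
        ((∑ i ∈ s, D i * ((i : ℕ) + 1) : ℕ) : ℚ) ^ (n + 1) := by
      intro s
      induction s using Finset.cons_induction with
      | empty => simp
      | cons a s ha ih =>
        rw [Finset.sum_cons, Finset.sum_cons]
        refine (add_le_add le_rfl ih).trans ?_
        rw [Nat.cast_add]
        exact pow_add_pow_le (by positivity) (by positivity) (by omega)
    refine (h4 Finset.univ).trans ?_
    apply pow_le_pow_left₀ (by positivity)
    rw [hE]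
    push_cast
    linarith
  have h5 : N ≤ E ^ (n + 1) := by exact_mod_cast h3
  refine h5.trans ?_
  rw [← pow_two, ← pow_mul]
  apply Nat.pow_le_pow_right
  · omega
  · omega

/-- enlarging the constant -/
lemma up_all {N : ℕ → ℕ} {k C : ℕ}
    (h : ∀ᶠ n : ℕ in Filter.atTop, N n ^ k ≤ C ^ n * n ^ ((k - 1) * n)) :
    ∃ D, ∀ n, 1 ≤ n → N n ^ k ≤ D ^ n * n ^ ((k - 1) * n) := by
  obtain ⟨n₀, hn₀⟩ := Filter.eventually_atTop.1 h
  obtain ⟨D, hD⟩ : ∃ D : ℕ, D = C + ∑ n ∈ Finset.range n₀, N n ^ k := ⟨_, rfl⟩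
  refine ⟨D, fun n hn => ?_⟩
  rcases Nat.lt_or_ge n n₀ with h1 | h1
  · have h2 : N n ^ k ≤ D := by
      rw [hD]
      have := Finset.single_le_sum (f := fun n => N n ^ k) (fun _ _ => Nat.zero_le _)
        (Finset.mem_range.2 h1)
      omega
    calc N n ^ k ≤ D := h2
      _ ≤ D ^ n := Nat.le_self_pow (by omega) D
      _ ≤ _ := Nat.le_mul_of_pos_right _ (pow_pos (by omega) _)
  · refine (hn₀ n h1).trans (Nat.mul_le_mul_right _ (Nat.pow_le_pow_left ?_ n))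
    omega

/-- the upper bound -/
lemma Growth.up {k : ℕ} {N : ℕ → ℕ} {A : Set ℕ} (h : Growth k N A) :
    ∃ D, ∀ n, 1 ≤ n → N n ^ k ≤ D ^ n * n ^ ((k - 1) * n) := by
  obtain ⟨-, B, j, hB, -, C, d, P, hev⟩ := h
  have hjk : ∀ n, 1 ≤ j n ∧ j n ≤ k := fun n => ⟨(hB n).1.1, (hB n).1.2.1⟩
  obtain ⟨E, hE1, hE⟩ := expPoly_le P
  apply up_all (C := (C * E) ^ k + E ^ k)
  filter_upwards [hev, Filter.eventually_ge_atTop 1] with n hn hn1
  obtain ⟨h1, h2⟩ := hn
  obtain ⟨h3, h4⟩ := hjk n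
  rcases Nat.eq_or_lt_of_le h3 with h5 | h5
  · have h6 := hE n hn1 _ (h1 h5.symm)
    calc N n ^ k ≤ (E ^ n) ^ k := Nat.pow_le_pow_left h6 k
      _ = (E ^ k) ^ n := by rw [← pow_mul, ← pow_mul, mul_comm]
      _ ≤ ((C * E) ^ k + E ^ k) ^ n := Nat.pow_le_pow_left (by omega) n
      _ ≤ _ := Nat.le_mul_of_pos_right _ (pow_pos (by omega) _)
  · obtain ⟨h6, -⟩ := h2 h5
    obtain ⟨i, hi⟩ : ∃ i, i = j n := ⟨_, rfl⟩
    rw [← hi] at h6 h4 h5
    have h7 : (N n ^ k) ^ i ≤ ((C ^ k) ^ n * n ^ ((k - 1) * n)) ^ i := by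
      calc (N n ^ k) ^ i = (N n ^ i) ^ k := by rw [← pow_mul, ← pow_mul, mul_comm]
        _ ≤ (C ^ n * n ^ ((i - 1) * n)) ^ k := Nat.pow_le_pow_left h6 k
        _ = (C ^ k) ^ n * n ^ ((i - 1) * n * k) := by
            rw [mul_pow, ← pow_mul, ← pow_mul, ← pow_mul, mul_comm n k]
        _ ≤ ((C ^ k) ^ n) ^ i * n ^ ((k - 1) * n * i) := by
            apply Nat.mul_le_mul
            · exact Nat.le_self_pow (by omega) _
            · apply Nat.pow_le_pow_right hn1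
              obtain ⟨a, rfl⟩ : ∃ a, i = a + 1 := ⟨i - 1, by omega⟩
              obtain ⟨b, rfl⟩ : ∃ b, k = a + 1 + b := ⟨k - (a + 1), by omega⟩
              have e1 : a + 1 + b - 1 = a + b := by omega
              rw [e1, Nat.add_sub_cancel]
              nlinarith
        _ = _ := by rw [mul_pow, ← pow_mul n]
    have h8 := (Nat.pow_le_pow_iff_left (by omega)).1 h7
    refine h8.trans (Nat.mul_le_mul_right _ (Nat.pow_le_pow_left ?_ n))
    have h9 : C ^ k ≤ (C * E) ^ k := Nat.pow_le_pow_left (Nat.le_mul_of_pos_right _ hE1) k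
    omega

/-- the lower bound -/
lemma Growth.low {k : ℕ} {N : ℕ → ℕ} {A : Set ℕ} (hk : 2 ≤ k) (h : Growth k N A) :
    ∃ C : ℕ, ∀ m : ℕ, ∃ n, m ≤ n ∧ n ^ ((k - 1) * n) ≤ C ^ n * N n ^ k := by
  obtain ⟨-, B, j, hB, ⟨n₁, hn₁⟩, C, d, P, hev⟩ := h
  obtain ⟨n₀, hn₀⟩ := Filter.eventually_atTop.1 hev
  obtain ⟨p, hpk⟩ : ∃ p, p = k.factorial := ⟨_, rfl⟩
  have hp : 1 ≤ p := by
    rw [hpk]
    exact Nat.factorial_pos k
  have hper : ∀ l, j (n₁ + p * l) = k := by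
    intro l
    rw [← hn₁]
    have h1 : {t | 1 ≤ t ∧ t ≤ k ∧ (n₁ + p * l) % t ∈ B t} = {t | 1 ≤ t ∧ t ≤ k ∧ n₁ % t ∈ B t} := by
      ext t
      simp only [Set.mem_setOf_eq]
      refine and_congr_right fun ht => and_congr_right fun htk => ?_
      obtain ⟨e, he⟩ : t ∣ p := by
        rw [hpk]
        exact Nat.dvd_factorial ht htk
      rw [he, mul_assoc, Nat.add_mul_mod_self_left]
    have h2 := hB (n₁ + p * l)
    rw [h1] at h2
    exact h2.unique (hB n₁)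
  refine ⟨C, fun m => ⟨n₁ + p * (m + n₀), ?_, ?_⟩⟩
  · have : 1 * (m + n₀) ≤ p * (m + n₀) := Nat.mul_le_mul_right _ hp
    omega
  · have h1 : n₀ ≤ n₁ + p * (m + n₀) := by
      have : 1 * (m + n₀) ≤ p * (m + n₀) := Nat.mul_le_mul_right _ hp
      omega
    have h2 := (hn₀ _ h1).2
    rw [hper] at h2
    exact (h2 hk).2

theorem Growth.unique {k l : ℕ} {N : ℕ → ℕ} {A B : Set ℕ} (hk : 1 ≤ k) (hl : 1 ≤ l)
    (h : Growth k N A) (h' : Growth l N B) : k = l := by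
  rcases Nat.lt_trichotomy k l with hkl | hkl | hkl
  · obtain ⟨D, hD⟩ := h'.low (by omega)
    obtain ⟨C, hC⟩ := h.up
    exact (clash hk hkl hC hD).elim
  · exact hkl
  · obtain ⟨D, hD⟩ := h.low (by omega)
    obtain ⟨C, hC⟩ := h'.up
    exact (clash hl hkl hC hD).elim

theorem Growth.not_wild {k : ℕ} {N : ℕ → ℕ} {A : Set ℕ} (hk : 1 ≤ k) (h : Growth k N A) :
    ¬ Wild N := by
  obtain ⟨C, hC⟩ := h.up
  exact fun h2 => clashC hk hC h2

/-- the growth theorem: exactly one case -/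
theorem growthM3 (hA : StmtAll) (S : Type) [Finite S] (ar : S → ℕ)
    (φ : SFm (RelLang S ar) 0 0) :
    (¬ Wild (countM φ) ∧ ∃! k, 1 ≤ k ∧ Growth k (countM φ) (specM φ)) ∨
      (Wild (countM φ) ∧ ∀ k, 1 ≤ k → ¬ Growth k (countM φ) (specM φ)) := by
  by_cases hC : Wild (countM φ)
  · exact Or.inr ⟨hC, fun k hk h => h.not_wild hk hC⟩
  · obtain ⟨k, hk, h⟩ := hA S ar φ (famBdd_of_not φ hC)
    exact Or.inl ⟨hC, k, ⟨hk, h⟩, fun l ⟨hl, h'⟩ => h'.unique hl hk h⟩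

/-- first-order sentences: exactly one case, with the sharp bound -/
theorem growthFO3 (hA : StmtAll) (hT : StmtSharp) (r : ℕ) : ∃ C : ℕ,
    ∀ (S : Type) [Finite S] (ar : S → ℕ) (χ : (RelLang S ar).Sentence), (∀ s, ar s ≤ r) →
    (¬ Wild (count χ) ∧ ∃! k, 1 ≤ k ∧ Growth k (count χ) (Pool.Agent.Helper40.MC.spec χ)) ∨
      (Wild (count χ) ∧
        (∀ k, 1 ≤ k → ¬ Growth k (count χ) (Pool.Agent.Helper40.MC.spec χ)) ∧
        ∀ m : ℕ, ∃ n, m ≤ n ∧ n.factorial < count χ n * (Nat.log 2 n + 1) ^ (C * n)) := by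
  obtain ⟨C, hC⟩ := hT r
  refine ⟨C, fun S _ ar χ har => ?_⟩
  have h := growthM3 hA S ar (toM χ)
  rw [show countM (toM χ) = count χ from funext (countM_toM χ), specM_toM] at h
  rcases h with h | ⟨h1, h2⟩
  · exact Or.inl h
  · refine Or.inr ⟨h1, h2, ?_⟩
    by_contra hcon
    have h3 : ∀ᶠ n : ℕ in Filter.atTop, count χ n * (Nat.log 2 n + 1) ^ (C * n) ≤ n.factorial := by
      push Not at hcon
      obtain ⟨m, hm⟩ := hcon
      exact Filter.eventually_atTop.2 ⟨m, hm⟩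
    obtain ⟨k, hk, h4⟩ := hA S ar (toM χ) (hC S ar χ har h3)
    rw [show countM (toM χ) = count χ from funext (countM_toM χ), specM_toM] at h4
    exact h2 k hk h4

end Pool.Agent.Helper40.MCM
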