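import Pool.Agent.Helper40.MC.Growth3

/-!
# Growth of the number of models: the second case, sharp, for monadic second-order logic
-/

set_option autoImplicit false

namespace Pool.Agent.Helper40.MCM

open FirstOrder Pool.Agent.Helper20.Spectra Pool.Agent.Helper58.QD Pool.Agent.Helper14.SS
open Pool.Agent.Helper40.MC (FinAP)

/-- (project ME) few models give bounded families -/
def StmtFamM : Prop := ∀ (S : Type) [Finite S] (ar : S → ℕ) (φ : SFm (RelLang S ar) 0 0),
  ∃ C : ℕ, (∀ᶠ n : ℕ in Filter.atTop, countM φ n * (Nat.log 2 n + 1) ^ (C * n) ≤ n.factorial) →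
    FamBdd φ

/-- the growth theorem: exactly one case, with the sharp bound in the second case -/
theorem growthM4 (hA : StmtAll) (hF : StmtFamM) (S : Type) [Finite S] (ar : S → ℕ)
    (φ : SFm (RelLang S ar) 0 0) :
    (¬ Wild (countM φ) ∧ ∃! k, 1 ≤ k ∧ Growth k (countM φ) (specM φ)) ∨
      (Wild (countM φ) ∧ (∀ k, 1 ≤ k → ¬ Growth k (countM φ) (specM φ)) ∧
        ∃ C : ℕ, ∀ m : ℕ, ∃ n, m ≤ n ∧ n.factorial < countM φ n * (Nat.log 2 n + 1) ^ (C * n)) := by
  rcases growthM3 hA S ar φ with h | ⟨h1, h2⟩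
  · exact Or.inl h
  · refine Or.inr ⟨h1, h2, ?_⟩
    obtain ⟨C, hC⟩ := hF S ar φ
    refine ⟨C, ?_⟩
    by_contra hcon
    have h3 : ∀ᶠ n : ℕ in Filter.atTop,
        countM φ n * (Nat.log 2 n + 1) ^ (C * n) ≤ n.factorial := by
      push Not at hcon
      obtain ⟨m, hm⟩ := hcon
      exact Filter.eventually_atTop.2 ⟨m, hm⟩
    obtain ⟨k, hk, h4⟩ := hA S ar φ (hC h3)
    exact h2 k hk h4

end Pool.Agent.Helper40.MCM
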