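import Pool.Agent.Helper40.MC.Tame
import Pool.Agent.Helper6.MC.Fam
import Pool.Agent.Helper53.MC.Hit

/-!
# Many automorphisms give homogeneous families
-/

set_option autoImplicit false

namespace Pool.Agent.Helper40.MC

open Pool.Agent.Helper6.MC (Flip IsAut homOrCount Fam.perm)

/-- numerics (helper53) -/
def StmtNumR : Prop := ∀ (k q : ℕ) (ε : ℝ), 0 < ε → ∀ᶠ n : ℕ in Filter.atTop,
  ∃ L : ℕ, 1 ≤ L ∧ ∀ p g : ℕ, p * L ≤ (n + L) * (2 * Nat.log 2 n + 2) →
    g ≤ n ^ p * (4 * L) ^ n * n ^ (n / (k + 1)) * (q * k + 1) ^ n * (2 * L) ^ n →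
    (g : ℝ) < (n : ℝ) ^ ((1 / (k + 1) + ε) * n)

theorem homC (hnum : StmtNumR) : StmtHomC := by
  intro k q ε hε
  filter_upwards [hnum k q ε hε] with n hn Col c hf hG
  classical
  obtain ⟨L, hL, hn⟩ := hn
  obtain ⟨P, hP, hPL⟩ := Pool.Agent.Helper53.MC.hitSet c hL
  rw [Fintype.card_fin] at hPL
  rcases homOrCount (k := k) (q := q) hf hL P hP with ⟨t, h1, h2, h3⟩ | h
  · exact ⟨t, h1, h2, Fam.perm hf h3⟩
  · exfalso
    rw [Fintype.card_fin] at h
    have h1 := hn P.card (Nat.card {g : Equiv.Perm (Fin n) // IsAut c g}) hPL (by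
      rw [Nat.card_eq_fintype_card]
      refine h.trans (le_of_eq ?_)
      ring)
    exact absurd hG (not_le.2 h1)

end Pool.Agent.Helper40.MC
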