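import Pool.Agent.Helper40.MC.Chain

/-!
# Growth of the number of models: statements
-/

set_option autoImplicit false

namespace Pool.Agent.Helper40.MCM

open FirstOrder Pool.Agent.Helper20.Spectra Pool.Agent.Helper58.QD Pool.Agent.Helper14.SS
open Pool.Agent.Helper31.QD (Au)
open Pool.Agent.Helper38.MC (AuG StmtHomA)
open Pool.Agent.Helper40.MC (FinAP)

variable {S : Type} {ar : S → ℕ}

/-- a homogeneous family of `q` blocks of `t` points -/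
def HFam {n : ℕ} (R : Interp S ar (Fin n)) (q t : ℕ) : Prop :=
  ∃ u : Fin q × Fin t → Fin n, Function.Injective u ∧
    ∀ (π : Equiv.Perm (Fin q)) (σ : Equiv.Perm (Fin n)), (∀ i x, σ (u (i, x)) = u (π i, x)) →
      (∀ z, (∀ p, u p ≠ z) → σ z = z) → Au R σ

/-- all large models have homogeneous families of blocks of bounded size -/
def FamBdd (φ : SFm (RelLang S ar) 0 0) : Prop :=
  ∃ K : ℕ, ∀ q : ℕ, ∃ n₀ : ℕ, ∀ n, n₀ ≤ n → ∀ R : Interp S ar (Fin n), SatM φ R →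
    ∃ t, 1 ≤ t ∧ t ≤ K ∧ HFam R q t

/-- growth (a) -/
def Growth1 (φ : SFm (RelLang S ar) 0 0) : Prop :=
  (∃ C, ∀ n, 1 ≤ n → countM φ n ≤ C ^ n) ∧ ((specM φ).Finite ∨ (specM φ)ᶜ.Finite)

/-- growth (b): `N(n) = n ^ ((1 - 1 / k) n)` up to factors `C ^ n` -/
def GrowthK (φ : SFm (RelLang S ar) 0 0) (k : ℕ) : Prop :=
  (∃ C : ℕ, (∀ n, 1 ≤ n → countM φ n ^ k ≤ C ^ n * n ^ ((k - 1) * n)) ∧
    ∀ N, ∃ n, N ≤ n ∧ n ^ ((k - 1) * n) ≤ C ^ n * countM φ n ^ k) ∧ FinAP k (specM φ)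

/-- growth (c) -/
def GrowthC (φ : SFm (RelLang S ar) 0 0) : Prop :=
  ∀ ε : ℝ, 0 < ε → ∀ N : ℕ, ∃ n, N ≤ n ∧ (n : ℝ) ^ ((1 - ε) * n) ≤ countM φ n

/-- (helper53) structure theorem -/
def StmtStruct : Prop := ∀ (S : Type) [Finite S] (ar : S → ℕ) (φ : SFm (RelLang S ar) 0 0),
  FamBdd φ → Growth1 φ ∨ ∃ k, 2 ≤ k ∧ GrowthK φ k

/-- (helper6, helper38) sharp threshold for first-order sentences -/
def StmtSharp : Prop := ∀ r : ℕ, ∃ C : ℕ, ∀ (S : Type) [Finite S] (ar : S → ℕ)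
  (χ : (RelLang S ar).Sentence), (∀ s, ar s ≤ r) →
  (∀ᶠ n : ℕ in Filter.atTop, count χ n * (Nat.log 2 n + 1) ^ (C * n) ≤ n.factorial) →
  FamBdd (toM χ)

/-- (helper20) the wild side below `n!` -/
def StmtWildK : Prop := ∀ K : ℕ, ∃ (S : Type) (_ : Finite S) (ar : S → ℕ)
  (χ : (RelLang S ar).Sentence), (∀ᶠ n : ℕ in Filter.atTop, count χ n * K ^ n ≤ n.factorial) ∧
    ∀ A : Set ℕ, IsSpectrum A →
      ∃ q : Polynomial ℕ, A = {n : ℕ | 1 ≤ n ∧ q.eval n ∈ Pool.Agent.Helper40.MC.spec χ}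

/-- (helper20) the same for monadic second-order logic -/
def StmtWildMK : Prop := ∀ K : ℕ, ∃ (S : Type) (_ : Finite S) (ar : S → ℕ)
  (φ : SFm (RelLang S ar) 0 0), (∀ᶠ n : ℕ in Filter.atTop, countM φ n * K ^ n ≤ n.factorial) ∧
    ¬ PolyHier (specM φ)

/-- small counts give families -/
theorem famBdd_of_not {S : Type} [Finite S] {ar : S → ℕ} (φ : SFm (RelLang S ar) 0 0)
    (h : ¬ GrowthC φ) : FamBdd φ := by
  unfold GrowthC at h
  push Not at h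
  obtain ⟨ε, hε, N, hN⟩ := h
  obtain ⟨k, hk⟩ := exists_nat_gt (1 / (ε / 2))
  have hk0 : 1 / ((k : ℝ) + 1) < ε / 2 := by
    have h1 : 1 / (ε / 2) < (k : ℝ) + 1 := by linarith
    rw [div_lt_iff₀ (by linarith)] at h1
    rw [div_lt_iff₀ (by positivity)]
    linarith [mul_comm ((k : ℝ) + 1) (ε / 2)]
  refine ⟨k, fun q => ?_⟩
  obtain ⟨n₁, hn₁⟩ := Filter.eventually_atTop.1
    ((num_aux k (c := 1 - ε) (ε := ε / 4) (by linarith)).and (stmtHomA0 S ar k q (ε / 4)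
      (by linarith)))
  refine ⟨max N n₁, fun n hn R hR => ?_⟩
  obtain ⟨hA, hB⟩ := hn₁ n (le_of_max_le_right hn)
  exact hB R (hA (countM φ n) _ (hN n (le_of_max_le_left hn)).le (factorial_leM hR))

end Pool.Agent.Helper40.MCM
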